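import Pool.Agent.H18.Adj.Final

/-!
# Crepant maps to bundles of flag varieties
-/

set_option autoImplicit false
set_option linter.unusedSectionVars false

namespace H18.Adj

open MvPolynomial Q47.FL H18.GIT Filter
open scoped Manifold ContDiff Topology

universe u v w x

attribute [local instance] Matrix.linftyOpNormedRing Matrix.linftyOpNormedAlgebra

variable {n : ℕ} {B : Type u} [TopologicalSpace B] [ChartedSpace (Fin n → ℂ) B]
  [IsManifold 𝓘(ℂ, Fin n → ℂ) ω B] {q : ℕ} {ι : Type v} {Y : FlagBundle n B q ι} {b : Fin q → ℕ}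
  {k : ℕ} {X : Type w} [TopologicalSpace X] [ChartedSpace (Fin k → ℂ) X]
  [IsManifold 𝓘(ℂ, Fin k → ℂ) ω X] {κ : Type x} {h : FlagMap Y b k X κ}
  {F : ι → B → MvPolynomial (Fin q × Fin q) ℂ}
  {θ : ((Fin n → ℂ) × (Low b → ℂ)) ≃ₗ[ℂ] (Fin k → ℂ)} {m : ℕ}

theorem jacobian_trans {a : κ} {p : X} (hp : p ∈ h.W a)
    {ψ ψ' : OpenPartialHomeomorph X (Fin k → ℂ)}
    (hψ : ψ ∈ atlas (Fin k → ℂ) X) (hψ' : ψ' ∈ atlas (Fin k → ℂ) X) (hpψ : p ∈ ψ.source)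
    (hpψ' : p ∈ ψ'.source) : h.jacobian θ ψ a p * jac ψ ψ' p = h.jacobian θ ψ' a p := by
  have h1 : (h.diff ψ' a p : (Fin k → ℂ) →ₗ[ℂ] (Fin n → ℂ) × (Low b → ℂ)) =
      (h.diff ψ a p : (Fin k → ℂ) →ₗ[ℂ] (Fin n → ℂ) × (Low b → ℂ)) ∘ₗ
      (fderiv ℂ (ψ ∘ ψ'.symm) (ψ' p) : (Fin k → ℂ) →ₗ[ℂ] (Fin k → ℂ)) := by
    refine LinearMap.ext fun w => ?_
    have h2 := diff_trans (h := h) hp hψ hψ' hpψ hpψ'
    change h.diff ψ' a p w = _
    rw [h2]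
    rfl
  rw [FlagMap.jacobian, FlagMap.jacobian, h1, ← LinearMap.comp_assoc, LinearMap.det_comp]
  rfl

theorem jacobian_change {a a' : κ} {p : X} (hp : p ∈ h.W a) (hp' : p ∈ h.W a')
    {R : Matrix (Fin q) (Fin q) ℂ} (hR : R.BlockTriangular b)
    (hgr : h.g a p = Y.A (h.idx a) (h.idx a') (h.π p) * h.g a' p * R) (hδ : dlt b R ≠ 0)
    {ψ : OpenPartialHomeomorph X (Fin k → ℂ)} (hψ : ψ ∈ atlas (Fin k → ℂ) X) (hpψ : p ∈ ψ.source) :
    h.jacobian θ ψ a p = jac (Y.chart (h.idx a)) (Y.chart (h.idx a')) (h.π p) * dlt b R *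
      h.jacobian θ ψ a' p := by
  have h1 : (θ : ((Fin n → ℂ) × (Low b → ℂ)) →ₗ[ℂ] (Fin k → ℂ)) ∘ₗ
      (h.diff ψ a p : (Fin k → ℂ) →ₗ[ℂ] (Fin n → ℂ) × (Low b → ℂ)) =
      ((θ : ((Fin n → ℂ) × (Low b → ℂ)) →ₗ[ℂ] (Fin k → ℂ)) ∘ₗ trh h a a' p R ∘ₗ
        (θ.symm : (Fin k → ℂ) →ₗ[ℂ] ((Fin n → ℂ) × (Low b → ℂ)))) ∘ₗ
      ((θ : ((Fin n → ℂ) × (Low b → ℂ)) →ₗ[ℂ] (Fin k → ℂ)) ∘ₗ
        (h.diff ψ a' p : (Fin k → ℂ) →ₗ[ℂ] (Fin n → ℂ) × (Low b → ℂ))) := by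
    refine LinearMap.ext fun w => ?_
    have h2 := diff_change hp hp' hR hgr hψ hpψ w
    simp only [LinearMap.comp_apply, LinearEquiv.coe_coe, θ.symm_apply_apply]
    change θ (h.diff ψ a p w) = θ (trh h a a' p R (h.diff ψ a' p w))
    rw [h2]
  have h2 : LinearMap.det (trh h a a' p R) =
      jac (Y.chart (h.idx a)) (Y.chart (h.idx a')) (h.π p) * dlt b R := by
    rw [trh, det_tr _ _ _ _ _ hδ]
    rfl
  rw [FlagMap.jacobian, h1, LinearMap.det_comp, LinearMap.det_conj, h2]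
  rfl

/-- Continuous functions which agree on a dense set agree. -/
theorem eq_of_dense {U : Set X} (hU : IsOpen U) {D : Set X} (hD : Dense D) {f g : X → ℂ}
    (hf : ContinuousOn f U) (hg : ContinuousOn g U) (h : ∀ p ∈ U ∩ D, f p = g p) :
    ∀ p ∈ U, f p = g p := by
  intro p hp
  have h1 : p ∈ closure (U ∩ D) := hD.open_subset_closure_inter hU hp
  have h2 : (𝓝[U ∩ D] p).NeBot := mem_closure_iff_nhdsWithin_neBot.1 h1
  have h3 : Tendsto f (𝓝[U ∩ D] p) (𝓝 (f p)) :=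
    (hf p hp).mono_left (nhdsWithin_mono _ Set.inter_subset_left)
  have h4 : Tendsto g (𝓝[U ∩ D] p) (𝓝 (g p)) :=
    (hg p hp).mono_left (nhdsWithin_mono _ Set.inter_subset_left)
  exact tendsto_nhds_unique_of_eventuallyEq h3 h4
    (eventually_nhdsWithin_of_forall fun p hp => h p hp)

section

variable (hb : Monotone b) {d : ℕ → ℕ} {e : ι → ι → B → ℂ}
  (hF : Y.IsDivisor b d F e) (hc : h.IsCrepant θ m F) {N : ℕ}
  {G : ι → B → MvPolynomial (Fin q × Fin q) ℂ} (hG : Y.IsRelativeSection b m d e N G)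

/-- The dense set. -/
def dn (h : FlagMap Y b k X κ) (θ : ((Fin n → ℂ) × (Low b → ℂ)) ≃ₗ[ℂ] (Fin k → ℂ)) : Set X :=
  {p : X | ∀ a, p ∈ h.W a → h.jacobian θ (chartAt (Fin k → ℂ) p) a p ≠ 0}

theorem jacobian_ne_zero {a : κ} {p : X} (hp : p ∈ h.W a) (hpd : p ∈ dn h θ)
    {ψ : OpenPartialHomeomorph X (Fin k → ℂ)} (hψ : ψ ∈ atlas (Fin k → ℂ) X) (hpψ : p ∈ ψ.source) :
    h.jacobian θ ψ a p ≠ 0 := by
  rw [← jacobian_trans hp (chart_mem_atlas _ p) hψ (mem_chart_source _ p) hpψ]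
  exact mul_ne_zero (hpd a hp) (jac_ne_zero (chart_mem_atlas _ p) hψ (mem_chart_source _ p) hpψ)

open Classical in
/-- The unit. -/
noncomputable def un (F : ι → B → MvPolynomial (Fin q × Fin q) ℂ) (h : FlagMap Y b k X κ)
    (θ : ((Fin n → ℂ) × (Low b → ℂ)) ≃ₗ[ℂ] (Fin k → ℂ)) (m : ℕ)
    (ψ : OpenPartialHomeomorph X (Fin k → ℂ)) (a : κ) : X → ℂ :=
  if H : ∃ u : X → ℂ, Holo (n := k) (ψ.source ∩ h.W a) u ∧ ∀ p ∈ ψ.source ∩ h.W a, u p ≠ 0 ∧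
      h.jacobian θ ψ a p ^ m = u p * ev (h.g a p) (F (h.idx a) (h.π p)) then H.choose else 0

omit [IsManifold 𝓘(ℂ, Fin n → ℂ) ω B] [IsManifold 𝓘(ℂ, Fin k → ℂ) ω X] in
include hc in
theorem un_spec {ψ : OpenPartialHomeomorph X (Fin k → ℂ)} (hψ : ψ ∈ atlas (Fin k → ℂ) X) (a : κ) :
    Holo (n := k) (ψ.source ∩ h.W a) (un F h θ m ψ a) ∧ ∀ p ∈ ψ.source ∩ h.W a,
      un F h θ m ψ a p ≠ 0 ∧
      h.jacobian θ ψ a p ^ m = un F h θ m ψ a p * ev (h.g a p) (F (h.idx a) (h.π p)) := by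
  have H := hc.ramification ψ hψ a
  rw [un, dif_pos H]
  exact H.choose_spec

include hc in
/-- The change of the chart. -/
theorem un_trans {a : κ} {ψ ψ' : OpenPartialHomeomorph X (Fin k → ℂ)}
    (hψ : ψ ∈ atlas (Fin k → ℂ) X) (hψ' : ψ' ∈ atlas (Fin k → ℂ) X) {p : X} (hp : p ∈ h.W a)
    (hpψ : p ∈ ψ.source) (hpψ' : p ∈ ψ'.source) :
    un F h θ m ψ a p * jac ψ ψ' p ^ m = un F h θ m ψ' a p := by
  have hU : IsOpen (h.W a ∩ (ψ.source ∩ ψ'.source)) :=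
    (h.isOpen a).inter (ψ.open_source.inter ψ'.open_source)
  have hj : ContinuousOn (jac ψ ψ') (h.W a ∩ (ψ.source ∩ ψ'.source)) := fun p hp =>
    (contMDiffAt_jac hψ hψ' hp.2.1 hp.2.2).continuousAt.continuousWithinAt
  refine eq_of_dense hU hc.dense
    ((((un_spec hc hψ a).1.continuousOn).mono fun p hp => ⟨hp.2.1, hp.1⟩).mul (hj.pow m))
    (((un_spec hc hψ' a).1.continuousOn).mono fun p hp => ⟨hp.2.2, hp.1⟩) ?_ p ⟨hp, hpψ, hpψ'⟩
  rintro p ⟨⟨hp, hpψ, hpψ'⟩, hpd⟩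
  have h1 := ((un_spec hc hψ a).2 p ⟨hpψ, hp⟩).2
  have h2 := ((un_spec hc hψ' a).2 p ⟨hpψ', hp⟩).2
  have h3 := jacobian_ne_zero (θ := θ) hp hpd hψ' hpψ'
  have h4 : ev (h.g a p) (F (h.idx a) (h.π p)) ≠ 0 := by
    intro h0
    rw [h0, mul_zero] at h2
    exact pow_ne_zero m h3 h2
  apply mul_right_cancel₀ h4
  change un F h θ m ψ a p * jac ψ ψ' p ^ m * _ = _
  rw [← h2, ← jacobian_trans hp hψ hψ' hpψ hpψ', mul_pow, h1]
  ring

/-- The form on `X` which is given by `G`. -/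
noncomputable def cform (F : ι → B → MvPolynomial (Fin q × Fin q) ℂ) (h : FlagMap Y b k X κ)
    (θ : ((Fin n → ℂ) × (Low b → ℂ)) ≃ₗ[ℂ] (Fin k → ℂ)) (m N : ℕ)
    (G : ι → B → MvPolynomial (Fin q × Fin q) ℂ) (a : κ)
    (ψ : OpenPartialHomeomorph X (Fin k → ℂ)) (φ : OpenPartialHomeomorph B (Fin n → ℂ)) (p : X) : ℂ :=
  ev (h.g a p) (G (h.idx a) (h.π p)) * un F h θ m ψ a p ^ N *
    jac φ (Y.chart (h.idx a)) (h.π p) ^ (m * N)

include hc hG in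
theorem contMDiffAt_cform {a : κ} {p : X} (hp : p ∈ h.W a)
    {ψ : OpenPartialHomeomorph X (Fin k → ℂ)} (hψ : ψ ∈ atlas (Fin k → ℂ) X) (hpψ : p ∈ ψ.source)
    {φ : OpenPartialHomeomorph B (Fin n → ℂ)} (hφ : φ ∈ atlas (Fin n → ℂ) B)
    (hpφ : h.π p ∈ φ.source) :
    ContMDiffAt 𝓘(ℂ, Fin k → ℂ) 𝓘(ℂ) ω (cform F h θ m N G a ψ φ) p := by
  have hU := h.mem a p hp
  obtain ⟨d', hd', hsemi⟩ := hG.semi
  have h1 : ContMDiffAt 𝓘(ℂ, Fin k → ℂ) 𝓘(ℂ) ω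
      (fun p => ev (h.g a p) (G (h.idx a) (h.π p))) p := by
    apply contMDiffAt_of_chart hψ hpψ
    have hleft : ψ.symm (ψ p) = p := ψ.left_inv hpψ
    have h2 : ContDiffAt ℂ ω (fun c : (Fin n → ℂ) × Matrix (Fin q) (Fin q) ℂ =>
          ev c.2 (G (h.idx a) ((Y.chart (h.idx a)).symm c.1)))
          (Y.chart (h.idx a) (h.π (ψ.symm (ψ p))), h.g a (ψ.symm (ψ p))) := by
      rw [hleft]
      exact contDiffAt_Xi hG.holo hsemi hU _
    have h3 := ContDiffAt.comp (ψ p) (f := fun z =>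
      (Y.chart (h.idx a) (h.π (ψ.symm z)), h.g a (ψ.symm z))) h2
      ((contDiffAt_base hp hψ hpψ).prodMk (contDiffAt_lift hp hψ hpψ))
    refine h3.congr_of_eventuallyEq ?_
    filter_upwards [eventually_mem hpψ (h.isOpen a) hp] with z hz
    simp only [Function.comp_apply]
    rw [(Y.chart (h.idx a)).left_inv (h.mem a _ hz)]
  have h2 : ContMDiffAt 𝓘(ℂ, Fin k → ℂ) 𝓘(ℂ) ω (un F h θ m ψ a) p :=
    (un_spec hc hψ a).1.contMDiffAt
      ((ψ.open_source.inter (h.isOpen a)).mem_nhds ⟨hpψ, hp⟩)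
  have h3 : ContMDiffAt 𝓘(ℂ, Fin k → ℂ) 𝓘(ℂ) ω
      (fun p => jac φ (Y.chart (h.idx a)) (h.π p)) p :=
    (contMDiffAt_jac hφ (Y.mem_atlas _) hpφ hU).comp p (h.holo_π p)
  exact (h1.mul (h2.pow N)).mul (h3.pow (m * N))

include hb hF hc hG in
/-- The form does not depend on the lift. -/
theorem cform_change {a a' : κ} {ψ : OpenPartialHomeomorph X (Fin k → ℂ)}
    (hψ : ψ ∈ atlas (Fin k → ℂ) X) {φ : OpenPartialHomeomorph B (Fin n → ℂ)}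
    (hφ : φ ∈ atlas (Fin n → ℂ) B) {p : X} (hp : p ∈ h.W a) (hp' : p ∈ h.W a')
    (hpψ : p ∈ ψ.source) (hpφ : h.π p ∈ φ.source) :
    cform F h θ m N G a ψ φ p = cform F h θ m N G a' ψ φ p := by
  have hU : IsOpen ((h.W a ∩ h.W a') ∩ (ψ.source ∩ h.π ⁻¹' φ.source)) :=
    ((h.isOpen a).inter (h.isOpen a')).inter
      (ψ.open_source.inter (φ.open_source.preimage h.holo_π.continuous))
  refine eq_of_dense hU hc.dense
    (fun p hp => (contMDiffAt_cform hc hG hp.1.1 hψ hp.2.1 hφ hp.2.2).continuousAt.continuousWithinAt)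
    (fun p hp => (contMDiffAt_cform hc hG hp.1.2 hψ hp.2.1 hφ hp.2.2).continuousAt.continuousWithinAt)
    ?_ p ⟨⟨hp, hp'⟩, hpψ, hpφ⟩
  clear hpφ hpψ hp' hp p
  rintro p ⟨⟨⟨hp, hp'⟩, hpψ, hpφ⟩, hpd⟩
  obtain ⟨R, hR, hgr⟩ := h.compat a a' p ⟨hp, hp'⟩
  have hdet := det_r_ne_zero hp hp' hgr
  obtain ⟨_, _, c, hcc, hχ, hδ⟩ := good_of_bt hb hdet hR
  have hUa := h.mem a p hp
  have hUa' := h.mem a' p hp'
  have hδ0 : dlt b R ≠ 0 := by
    rw [hδ]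
    exact Finset.prod_ne_zero_iff.2 fun j _ => zpow_ne_zero _ (hcc j)
  have h1 := jacobian_change (θ := θ) hp hp' hR hgr hδ0 hψ hpψ
  obtain ⟨d', hd', hsemi⟩ := hG.semi
  have h2 : ev (h.g a p) (G (h.idx a) (h.π p)) = (∏ j, c j ^ d' (b j)) *
      (e (h.idx a) (h.idx a') (h.π p) ^ N * ev (h.g a' p) (G (h.idx a') (h.π p))) := by
    rw [hgr, hχ d' _ (hsemi _ _ hUa), hG.eq _ _ _ ⟨hUa, hUa'⟩]
  have h2F : ev (h.g a p) (F (h.idx a) (h.π p)) = (∏ j, c j ^ d (b j)) *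
      (e (h.idx a) (h.idx a') (h.π p) * ev (h.g a' p) (F (h.idx a') (h.π p))) := by
    rw [hgr, hχ d _ (hF.semi _ _ hUa), hF.eq _ _ _ ⟨hUa, hUa'⟩]
  have h3 := jac_mul hφ (Y.mem_atlas (h.idx a)) (Y.mem_atlas (h.idx a')) hpφ hUa hUa'
  -- the characters
  have h4 : (∏ j, c j ^ d' (b j)) * ((∏ j, c j ^ anti b j) ^ m) ^ N =
      (∏ j, c j ^ d (b j)) ^ N := by
    have h5 : ∀ j, c j ^ d' (b j) * ((c j ^ anti b j) ^ m) ^ N = (c j ^ d (b j)) ^ N := by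
      intro j
      rw [← zpow_natCast (c j) (d' (b j)), hd' j, ← pow_mul, ← zpow_natCast (c j ^ anti b j),
        ← zpow_mul, ← zpow_add₀ (hcc j), ← pow_mul, ← zpow_natCast (c j)]
      congr 1
      push_cast
      ring
    rw [← Finset.prod_pow, ← Finset.prod_pow, ← Finset.prod_mul_distrib, ← Finset.prod_pow]
    exact Finset.prod_congr rfl fun j _ => h5 j
  have hu := ((un_spec hc hψ a).2 p ⟨hpψ, hp⟩).2
  have hu' := ((un_spec hc hψ a').2 p ⟨hpψ, hp'⟩).2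
  have hJ := jacobian_ne_zero (θ := θ) hp hpd hψ hpψ
  have hJ' := jacobian_ne_zero (θ := θ) hp' hpd hψ hpψ
  have hFne : ev (h.g a p) (F (h.idx a) (h.π p)) ≠ 0 := by
    intro h0
    rw [h0, mul_zero] at hu
    exact pow_ne_zero m hJ hu
  have hFne' : ev (h.g a' p) (F (h.idx a') (h.π p)) ≠ 0 := by
    intro h0
    rw [h0, mul_zero] at hu'
    exact pow_ne_zero m hJ' hu'
  -- the units
  have h5 : un F h θ m ψ a p * ((∏ j, c j ^ d (b j)) * e (h.idx a) (h.idx a') (h.π p)) =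
      jac (Y.chart (h.idx a)) (Y.chart (h.idx a')) (h.π p) ^ m * (∏ j, c j ^ anti b j) ^ m *
        un F h θ m ψ a' p := by
    apply mul_right_cancel₀ hFne'
    rw [mul_assoc (jac _ _ _ ^ m * _), ← hu', ← hδ, ← mul_pow, ← mul_pow, ← h1, hu, h2F]
    ring
  have hene : e (h.idx a) (h.idx a') (h.π p) ≠ 0 := hF.e_ne_zero _ _ _ ⟨hUa, hUa'⟩
  have hcne : (∏ j, c j ^ d (b j)) ≠ 0 :=
    Finset.prod_ne_zero_iff.2 fun j _ => pow_ne_zero _ (hcc j)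
  have h6 : un F h θ m ψ a p ^ N *
      ((∏ j, c j ^ d (b j)) * e (h.idx a) (h.idx a') (h.π p)) ^ N =
      jac (Y.chart (h.idx a)) (Y.chart (h.idx a')) (h.π p) ^ (m * N) *
        ((∏ j, c j ^ anti b j) ^ m) ^ N * un F h θ m ψ a' p ^ N := by
    rw [← mul_pow, h5, mul_pow, mul_pow, ← pow_mul (jac _ _ _)]
  apply mul_right_cancel₀ (pow_ne_zero N (mul_ne_zero hcne hene))
  rw [cform, cform, h2, ← h3]
  calc (∏ j, c j ^ d' (b j)) * (e (h.idx a) (h.idx a') (h.π p) ^ N *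
        ev (h.g a' p) (G (h.idx a') (h.π p))) * un F h θ m ψ a p ^ N *
        jac φ (Y.chart (h.idx a)) (h.π p) ^ (m * N) *
        ((∏ j, c j ^ d (b j)) * e (h.idx a) (h.idx a') (h.π p)) ^ N
      = (∏ j, c j ^ d' (b j)) * (e (h.idx a) (h.idx a') (h.π p) ^ N *
        ev (h.g a' p) (G (h.idx a') (h.π p))) *
        jac φ (Y.chart (h.idx a)) (h.π p) ^ (m * N) *
        (un F h θ m ψ a p ^ N *
          ((∏ j, c j ^ d (b j)) * e (h.idx a) (h.idx a') (h.π p)) ^ N) := by ring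
    _ = ((∏ j, c j ^ d' (b j)) * ((∏ j, c j ^ anti b j) ^ m) ^ N) *
        e (h.idx a) (h.idx a') (h.π p) ^ N *
        ev (h.g a' p) (G (h.idx a') (h.π p)) * jac φ (Y.chart (h.idx a)) (h.π p) ^ (m * N) *
        jac (Y.chart (h.idx a)) (Y.chart (h.idx a')) (h.π p) ^ (m * N) *
        un F h θ m ψ a' p ^ N := by
          rw [h6]; ring
    _ = _ := by
          rw [h4]
          ring

/-- The relative form on `X` which is given by `G`. -/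
noncomputable def crform (F : ι → B → MvPolynomial (Fin q × Fin q) ℂ) (h : FlagMap Y b k X κ)
    (θ : ((Fin n → ℂ) × (Low b → ℂ)) ≃ₗ[ℂ] (Fin k → ℂ)) (m N : ℕ)
    (G : ι → B → MvPolynomial (Fin q × Fin q) ℂ)
    (ψ : OpenPartialHomeomorph X (Fin k → ℂ)) (φ : OpenPartialHomeomorph B (Fin n → ℂ)) (p : X) : ℂ :=
  cform F h θ m N G (h.cover p).choose ψ φ p

include hb hF hc hG in
theorem crform_eq {a : κ} {p : X} (hp : p ∈ h.W a)
    {ψ : OpenPartialHomeomorph X (Fin k → ℂ)} (hψ : ψ ∈ atlas (Fin k → ℂ) X) (hpψ : p ∈ ψ.source)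
    {φ : OpenPartialHomeomorph B (Fin n → ℂ)} (hφ : φ ∈ atlas (Fin n → ℂ) B)
    (hpφ : h.π p ∈ φ.source) : crform F h θ m N G ψ φ p = cform F h θ m N G a ψ φ p :=
  cform_change hb hF hc hG hψ hφ (h.cover p).choose_spec hp hpψ hpφ

include hb hF hc hG in
theorem isRelativeForm_crepant : IsRelativeForm h.π (m * N) (crform F h θ m N G) where
  holo := fun ψ hψ φ hφ p hp => by
    obtain ⟨a, ha⟩ := h.cover p
    have h1 := contMDiffAt_cform hc hG ha hψ hp.1 hφ hp.2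
    refine (h1.congr_of_eventuallyEq ?_).contMDiffWithinAt
    have h2 : ∀ᶠ p' in 𝓝 p, h.π p' ∈ φ.source :=
      (h.holo_π p).continuousAt.preimage_mem_nhds (φ.open_source.mem_nhds hp.2)
    filter_upwards [(h.isOpen a).mem_nhds ha, ψ.open_source.mem_nhds hp.1, h2] with p' h3 h4 h5
    exact crform_eq hb hF hc hG h3 hψ h4 hφ h5
  eq := fun ψ hψ ψ' hψ' φ hφ φ' hφ' p hp hp' => by
    obtain ⟨a, ha⟩ := h.cover p
    have hU := h.mem a p ha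
    rw [crform_eq hb hF hc hG ha hψ hp.1 hφ hp'.1, crform_eq hb hF hc hG ha hψ' hp.2 hφ' hp'.2,
      cform, cform, ← un_trans hc hψ hψ' ha hp.1 hp.2,
      ← jac_mul hφ hφ' (Y.mem_atlas (h.idx a)) hp'.1 hp'.2 hU]
    ring

include hb hF hc hG in
theorem crform_ne_zero {a : κ} {p : X} (hp : p ∈ h.W a)
    {ψ : OpenPartialHomeomorph X (Fin k → ℂ)} (hψ : ψ ∈ atlas (Fin k → ℂ) X) (hpψ : p ∈ ψ.source)
    {φ : OpenPartialHomeomorph B (Fin n → ℂ)} (hφ : φ ∈ atlas (Fin n → ℂ) B)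
    (hpφ : h.π p ∈ φ.source) (hne : ev (h.g a p) (G (h.idx a) (h.π p)) ≠ 0) :
    crform F h θ m N G ψ φ p ≠ 0 := by
  rw [crform_eq hb hF hc hG hp hψ hpψ hφ hpφ, cform]
  exact mul_ne_zero (mul_ne_zero hne (pow_ne_zero _ ((un_spec hc hψ a).2 p ⟨hpψ, hp⟩).1))
    (pow_ne_zero _ (jac_ne_zero hφ (Y.mem_atlas _) hpφ (h.mem a p hp)))

end

end H18.Adj
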