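import Pool.Agent.H18.GIT.Defs

/-!
# Complex manifolds over a base, with a map to a bundle of flag varieties

We define the pluricanonical forms on a complex manifold, holomorphic maps from a complex manifold
`X` to a bundle `Y → B` of flag varieties, and say when such a map is an immersion onto a complete
intersection of hypersurfaces.
-/

set_option autoImplicit false

namespace H18.Adj

open MvPolynomial Q47.FL H18.GIT
open scoped Manifold ContDiff

universe u v w x

section canonical

variable (n : ℕ) (B : Type u) [TopologicalSpace B] [ChartedSpace (Fin n → ℂ) B]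

/-- The functions `s φ`, for the charts `φ` in the atlas of the complex manifold `B` of dimension `n`,
define a global section of the `N`-th power of the canonical bundle `K_B`: the function `s φ` is
holomorphic on the domain of `φ`, and the `N`-canonical forms `s φ (dφ_1 ∧ ... ∧ dφ_n) ^ N` agree. -/
structure IsCanonicalForm (N : ℕ) (s : OpenPartialHomeomorph B (Fin n → ℂ) → B → ℂ) : Prop where
  holo : ∀ φ ∈ atlas (Fin n → ℂ) B, Holo (n := n) φ.source (s φ)
  eq : ∀ φ ∈ atlas (Fin n → ℂ) B, ∀ φ' ∈ atlas (Fin n → ℂ) B, ∀ p ∈ φ.source ∩ φ'.source,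
    s φ p * jac φ φ' p ^ N = s φ' p

/-- The `N`-th power of the canonical bundle `K_B` is globally generated: at each point there is a
global section which does not vanish. -/
def IsGloballyGenerated (N : ℕ) : Prop :=
  ∀ p : B, ∃ s, IsCanonicalForm n B N s ∧ s (chartAt (Fin n → ℂ) p) p ≠ 0

end canonical

variable {n : ℕ} {B : Type u} [TopologicalSpace B] [ChartedSpace (Fin n → ℂ) B]

/-- The functions `s ψ φ`, for the charts `ψ` of `X` and the charts `φ` of `B`, define a global
section of the `N`-th power of the relative canonical bundle `K_{X/B} = K_X ⊗ π^* K_B ^ (-1)` of the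
map `π : X → B`: the forms `s ψ φ (dψ) ^ N / (dφ) ^ N` agree. -/
structure IsRelativeForm {k : ℕ} {X : Type w} [TopologicalSpace X] [ChartedSpace (Fin k → ℂ) X]
    (π : X → B) (N : ℕ)
    (s : OpenPartialHomeomorph X (Fin k → ℂ) → OpenPartialHomeomorph B (Fin n → ℂ) → X → ℂ) :
    Prop where
  holo : ∀ ψ ∈ atlas (Fin k → ℂ) X, ∀ φ ∈ atlas (Fin n → ℂ) B,
    Holo (n := k) (ψ.source ∩ π ⁻¹' φ.source) (s ψ φ)
  eq : ∀ ψ ∈ atlas (Fin k → ℂ) X, ∀ ψ' ∈ atlas (Fin k → ℂ) X, ∀ φ ∈ atlas (Fin n → ℂ) B,
    ∀ φ' ∈ atlas (Fin n → ℂ) B, ∀ p ∈ ψ.source ∩ ψ'.source, π p ∈ φ.source ∩ φ'.source →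
      s ψ φ p * jac ψ ψ' p ^ N = s ψ' φ' p * jac φ φ' (π p) ^ N

variable {q : ℕ} {ι : Type v}

/-- A holomorphic map `X → Y` from a complex manifold `X` of dimension `k` to the bundle `Y → B` of
flag varieties `GL_q / P` of the type `b` (see `FlagBundle`): it is given by the composition
`π : X → B` with the projection, by an open covering of `X` by sets `W a` with `π (W a) ⊆ U (idx a)`,
and by holomorphic maps `g a` from `W a` to `GL_q`. The map sends `p ∈ W a` to the point
`(π p, g a p P)` of the product `U (idx a) × GL_q / P`. On `W a ∩ W a'` this is the same point of `Y`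
for `a` and `a'`, where the elements of `P` are the block triangular invertible matrices. -/
structure FlagMap (Y : FlagBundle n B q ι) (b : Fin q → ℕ) (k : ℕ) (X : Type w)
    [TopologicalSpace X] [ChartedSpace (Fin k → ℂ) X] (κ : Type x) where
  π : X → B
  W : κ → Set X
  idx : κ → ι
  g : κ → X → Matrix (Fin q) (Fin q) ℂ
  holo_π : ContMDiff 𝓘(ℂ, Fin k → ℂ) 𝓘(ℂ, Fin n → ℂ) ω π
  isOpen : ∀ a, IsOpen (W a)
  cover : ∀ p, ∃ a, p ∈ W a
  mem : ∀ a, ∀ p ∈ W a, π p ∈ Y.U (idx a)
  holo : ∀ a i j, Holo (n := k) (W a) fun p => g a p i j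
  det_ne_zero : ∀ a, ∀ p ∈ W a, (g a p).det ≠ 0
  compat : ∀ a a', ∀ p ∈ W a ∩ W a', ∃ r : Matrix (Fin q) (Fin q) ℂ, r.BlockTriangular b ∧
    g a p = Y.A (idx a) (idx a') (π p) * g a' p * r

namespace FlagMap

variable {Y : FlagBundle n B q ι} {b : Fin q → ℕ} {k : ℕ} {X : Type w}
  [TopologicalSpace X] [ChartedSpace (Fin k → ℂ) X] {κ : Type x} (h : FlagMap Y b k X κ)

/-- The differential of the map `X → Y` at the point `p ∈ W a`, in the coordinates `ψ` of `X` and the
coordinates `(z, y)` of `Y` at the image of `p`; here `z = chart (idx a)` are the coordinates of `B`,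
and `y` are the coordinates `y ↦ g a p (1 + y) P` of `GL_q / P`, where `y` is a strictly lower block
triangular matrix (the flag `g a p' P` has, up to terms of higher order, the coordinates `y` which
are the strictly lower blocks of `(g a p)⁻¹ (g a p')`). -/
noncomputable def diff (ψ : OpenPartialHomeomorph X (Fin k → ℂ)) (a : κ) (p : X) :
    (Fin k → ℂ) →L[ℂ] (Fin n → ℂ) × (Low b → ℂ) :=
  fderiv ℂ (fun z => (Y.chart (h.idx a) (h.π (ψ.symm z)),
    fun y : Low b => ((h.g a p)⁻¹ * h.g a (ψ.symm z)) y.1.1 y.1.2)) (ψ p)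

/-- The differential at the image of `p ∈ W a` of the equation `F` of a divisor on `Y`, in the
coordinates `(z, y)` of `Y`. -/
noncomputable def normal (F : ι → B → MvPolynomial (Fin q × Fin q) ℂ) (a : κ) (p : X) :
    (Fin n → ℂ) × (Low b → ℂ) →L[ℂ] ℂ :=
  fderiv ℂ (fun c : (Fin n → ℂ) × (Low b → ℂ) => ev (chart b (h.g a p) c.2)
    (F (h.idx a) ((Y.chart (h.idx a)).symm c.1))) (Y.chart (h.idx a) (h.π p), 0)

/-- The map `X → Y` is an immersion, its image is contained in the hypersurfaces `F t = 0`,
`t = 1, ..., r`, whose differentials are linearly independent at all points of the image, and the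
codimension of `X` is `r`. So `X → Y` is a local isomorphism onto the complete intersection of the
hypersurfaces (for example an open embedding: `X` is the complete intersection itself if this is
smooth). -/
structure IsCompleteIntersection {r : ℕ} (F : Fin r → ι → B → MvPolynomial (Fin q × Fin q) ℂ) :
    Prop where
  dim : k + r = n + Fintype.card (Low b)
  zero : ∀ t a, ∀ p ∈ h.W a, ev (h.g a p) (F t (h.idx a) (h.π p)) = 0
  immersion : ∀ a, ∀ p ∈ h.W a, Function.Injective (h.diff (chartAt (Fin k → ℂ) p) a p)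
  smooth : ∀ a, ∀ p ∈ h.W a, LinearIndependent ℂ fun t => h.normal (F t) a p

/-- The Jacobian determinant at the point `p ∈ W a` of the map `X → Y`, where `X` and `Y` have the
same dimension, in the coordinates `ψ` of `X` and `(z, y)` of `Y` (see `diff`); here `θ` identifies
the coordinate spaces. -/
noncomputable def jacobian (θ : ((Fin n → ℂ) × (Low b → ℂ)) ≃ₗ[ℂ] (Fin k → ℂ))
    (ψ : OpenPartialHomeomorph X (Fin k → ℂ)) (a : κ) (p : X) : ℂ :=
  LinearMap.det ((θ : ((Fin n → ℂ) × (Low b → ℂ)) →ₗ[ℂ] (Fin k → ℂ)) ∘ₗ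
    (h.diff ψ a p : (Fin k → ℂ) →ₗ[ℂ] (Fin n → ℂ) × (Low b → ℂ)))

/-- Let `X` and `Y` have the same dimension and let `F` define the divisor `m Δ` on `Y`. The map
`h : X → Y` is generically finite (a local isomorphism at the points of a dense subset of `X`), and
its ramification divisor `R` satisfies `m R = h^* (m Δ)`: the quotient of the `m`-th power of the
Jacobian determinant by the equation `F` of `m Δ` is a holomorphic function `u` without zeros. In
other words `K_X = h^* (K_Y + Δ)`. (For example `X` may be a finite covering of `Y` which is branched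
with the multiplicity `m_i` over the component `D_i` of `Δ = ∑ (1 - 1 / m_i) D_i`, or a crepant
resolution of the singularities of such a covering.) -/
structure IsCrepant (θ : ((Fin n → ℂ) × (Low b → ℂ)) ≃ₗ[ℂ] (Fin k → ℂ)) (m : ℕ)
    (F : ι → B → MvPolynomial (Fin q × Fin q) ℂ) : Prop where
  dense : Dense {p : X | ∀ a, p ∈ h.W a → h.jacobian θ (chartAt (Fin k → ℂ) p) a p ≠ 0}
  ramification : ∀ ψ ∈ atlas (Fin k → ℂ) X, ∀ a, ∃ u : X → ℂ,
    Holo (n := k) (ψ.source ∩ h.W a) u ∧ ∀ p ∈ ψ.source ∩ h.W a, u p ≠ 0 ∧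
      h.jacobian θ ψ a p ^ m = u p * ev (h.g a p) (F (h.idx a) (h.π p))

end FlagMap

end H18.Adj
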