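import Mathlib

/-!
# The linear algebra of residues
-/

set_option autoImplicit false
set_option linter.unusedSectionVars false

namespace H18.Adj

variable {T S K : Type*} [AddCommGroup T] [Module ℂ T] [AddCommGroup S] [Module ℂ S]
  [AddCommGroup K] [Module ℂ K] [FiniteDimensional ℂ T] [FiniteDimensional ℂ S]
  [FiniteDimensional ℂ K]

/-- The determinant of `M` and `u`. -/
noncomputable def Dt (θ : T ≃ₗ[ℂ] (S × K)) (M : S →ₗ[ℂ] T) (u : K →ₗ[ℂ] T) : ℂ :=
  LinearMap.det ((M.coprod u) ∘ₗ (θ : T →ₗ[ℂ] (S × K)))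

theorem Dt_comp_left (θ : T ≃ₗ[ℂ] (S × K)) (M : S →ₗ[ℂ] T) (u : K →ₗ[ℂ] T) (T₀ : T →ₗ[ℂ] T) :
    Dt θ (T₀ ∘ₗ M) (T₀ ∘ₗ u) = LinearMap.det T₀ * Dt θ M u := by
  rw [Dt, Dt, ← LinearMap.det_comp, ← LinearMap.comp_assoc, LinearMap.comp_coprod]

theorem Dt_comp_right (θ : T ≃ₗ[ℂ] (S × K)) (M : S →ₗ[ℂ] T) (u : K →ₗ[ℂ] T)
    (R : (S × K) →ₗ[ℂ] (S × K)) (M' : S →ₗ[ℂ] T) (u' : K →ₗ[ℂ] T)
    (h : M'.coprod u' = (M.coprod u) ∘ₗ R) : Dt θ M' u' = Dt θ M u * LinearMap.det R := by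
  have h1 : ((M.coprod u) ∘ₗ R) ∘ₗ (θ : T →ₗ[ℂ] (S × K)) =
      ((M.coprod u) ∘ₗ (θ : T →ₗ[ℂ] (S × K))) ∘ₗ
        ((θ.symm : (S × K) →ₗ[ℂ] T) ∘ₗ R ∘ₗ (θ.symm.symm : T →ₗ[ℂ] (S × K))) := by
    refine LinearMap.ext fun x => ?_
    simp
  rw [Dt, h, h1, LinearMap.det_comp, LinearMap.det_conj]
  rfl

theorem det_prodMap_id (C : S →ₗ[ℂ] S) :
    LinearMap.det (C.prodMap (LinearMap.id : K →ₗ[ℂ] K)) = LinearMap.det C := by
  rw [LinearMap.det_prodMap, LinearMap.det_id, mul_one]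

theorem det_id_prodMap (E : K →ₗ[ℂ] K) :
    LinearMap.det ((LinearMap.id : S →ₗ[ℂ] S).prodMap E) = LinearMap.det E := by
  rw [LinearMap.det_prodMap, LinearMap.det_id, one_mul]

theorem Dt_comp_S (θ : T ≃ₗ[ℂ] (S × K)) (M : S →ₗ[ℂ] T) (u : K →ₗ[ℂ] T) (C : S →ₗ[ℂ] S) :
    Dt θ (M ∘ₗ C) u = Dt θ M u * LinearMap.det C := by
  rw [Dt_comp_right θ M u (C.prodMap LinearMap.id) (M ∘ₗ C) u, det_prodMap_id]
  refine LinearMap.ext fun x => ?_
  simp

theorem Dt_comp_K (θ : T ≃ₗ[ℂ] (S × K)) (M : S →ₗ[ℂ] T) (u : K →ₗ[ℂ] T) (E : K →ₗ[ℂ] K) :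
    Dt θ M (u ∘ₗ E) = Dt θ M u * LinearMap.det E := by
  rw [Dt_comp_right θ M u (LinearMap.id.prodMap E) M (u ∘ₗ E), det_id_prodMap]
  refine LinearMap.ext fun x => ?_
  simp

/-- The determinant of a unipotent map. -/
theorem det_unip (r : K →ₗ[ℂ] S) :
    LinearMap.det ((LinearMap.id : (S × K) →ₗ[ℂ] (S × K)) +
      (LinearMap.inl ℂ S K) ∘ₗ r ∘ₗ (LinearMap.snd ℂ S K)) = 1 := by
  -- `φ(c) = det (1 + c n)` satisfies `φ(2) = φ(1)` and `φ(2) = φ(1)^2`
  set n := (LinearMap.inl ℂ S K) ∘ₗ r ∘ₗ (LinearMap.snd ℂ S K) with hn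
  have hn2 : n ∘ₗ n = 0 := by
    refine LinearMap.ext fun x => ?_
    simp [hn]
  have h1 : LinearMap.det (LinearMap.id + (2 : ℂ) • n) =
      LinearMap.det (LinearMap.id + n) * LinearMap.det (LinearMap.id + n) := by
    rw [← LinearMap.det_comp]
    congr 1
    refine LinearMap.ext fun x => ?_
    have h2 : n (n x) = 0 := by
      rw [← LinearMap.comp_apply, hn2, LinearMap.zero_apply]
    simp only [LinearMap.add_apply, LinearMap.id_apply, LinearMap.comp_apply,
      map_add, h2, two_smul]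
    abel
  let D : (S × K) ≃ₗ[ℂ] (S × K) :=
    (LinearEquiv.smulOfNeZero ℂ S (2 : ℂ) two_ne_zero).prodCongr (LinearEquiv.refl ℂ K)
  have h2 : LinearMap.id + (2 : ℂ) • n = (D : (S × K) →ₗ[ℂ] (S × K)) ∘ₗ (LinearMap.id + n) ∘ₗ
      (D.symm : (S × K) →ₗ[ℂ] (S × K)) := by
    refine LinearMap.ext fun x => ?_
    have h3 : D (D.symm x) = x := D.apply_symm_apply x
    have h4 : D (n (D.symm x)) = (2 : ℂ) • n x := by
      have h5 : (D.symm x).2 = x.2 := rfl
      have h6 : n (D.symm x) = (r (D.symm x).2, 0) := rfl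
      have h7 : n x = (r x.2, 0) := rfl
      rw [h6, h7, h5]
      change ((2 : ℂ) • r x.2, (0 : K)) = (2 : ℂ) • (r x.2, (0 : K))
      rw [Prod.smul_mk, smul_zero]
    simp only [LinearMap.add_apply, LinearMap.id_apply, LinearMap.smul_apply, LinearMap.comp_apply,
      LinearEquiv.coe_coe, map_add, h3, h4]
  have h3 : LinearMap.det (LinearMap.id + (2 : ℂ) • n) = LinearMap.det (LinearMap.id + n) := by
    rw [h2, LinearMap.det_conj]
  have h4 : LinearMap.det (LinearMap.id + n) * LinearMap.det (LinearMap.id - n) = 1 := by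
    rw [← LinearMap.det_comp]
    have h5 : (LinearMap.id + n) ∘ₗ (LinearMap.id - n) = LinearMap.id := by
      refine LinearMap.ext fun x => ?_
      have h2 : n (n x) = 0 := by
        rw [← LinearMap.comp_apply, hn2, LinearMap.zero_apply]
      simp only [LinearMap.add_apply, LinearMap.id_apply, LinearMap.sub_apply, LinearMap.comp_apply,
        map_sub, h2]
      abel
    rw [h5, LinearMap.det_id]
  have h5 : LinearMap.det (LinearMap.id + n) ≠ 0 := left_ne_zero_of_mul_eq_one h4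
  rw [h3] at h1
  exact (mul_left_cancel₀ h5 (by rw [← h1, mul_one])).symm

/-- The residue factor does not depend on the choice of `u`. -/
theorem Dt_indep (θ : T ≃ₗ[ℂ] (S × K)) {M : S →ₗ[ℂ] T} (hM : Function.Injective M)
    {l : T →ₗ[ℂ] K} (hlM : l ∘ₗ M = 0) {u u' : K →ₗ[ℂ] T} (hu : LinearMap.det (l ∘ₗ u) ≠ 0)
    (hu' : LinearMap.det (l ∘ₗ u') ≠ 0) :
    Dt θ M u / LinearMap.det (l ∘ₗ u) = Dt θ M u' / LinearMap.det (l ∘ₗ u') := by
  -- first the case that `l ∘ u = l ∘ u'`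
  have key : ∀ v v' : K →ₗ[ℂ] T, l ∘ₗ v = l ∘ₗ v' → LinearMap.det (l ∘ₗ v) ≠ 0 →
      Dt θ M v = Dt θ M v' := by
    intro v v' hv hdet
    -- the kernel of `l` is the image of `M`
    have hsurj : Function.Surjective l := by
      have h1 : Function.Surjective (l ∘ₗ v) :=
        (LinearMap.equivOfDetNeZero (l ∘ₗ v) hdet).surjective
      exact Function.Surjective.of_comp h1
    have hker : LinearMap.ker l = LinearMap.range M := by
      symm
      apply Submodule.eq_of_le_of_finrank_eq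
      · rw [LinearMap.range_le_ker_iff]
        exact hlM
      · rw [LinearMap.finrank_range_of_inj hM]
        have h1 := LinearMap.finrank_range_add_finrank_ker l
        rw [LinearMap.range_eq_top.2 hsurj, finrank_top] at h1
        have h2 := θ.finrank_eq
        rw [Module.finrank_prod] at h2
        omega
    have h1 : ∀ x, v x - v' x ∈ LinearMap.range M := by
      intro x
      rw [← hker, LinearMap.mem_ker, map_sub]
      have := LinearMap.congr_fun hv x
      simp only [LinearMap.comp_apply] at this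
      rw [this, sub_self]
    let e : S ≃ₗ[ℂ] LinearMap.range M := LinearEquiv.ofInjective M hM
    let r : K →ₗ[ℂ] S := (e.symm : LinearMap.range M →ₗ[ℂ] S) ∘ₗ
      (LinearMap.codRestrict (LinearMap.range M) (v - v') h1)
    have h2 : ∀ x, M (r x) = v x - v' x := by
      intro x
      have h3 : (e (e.symm (LinearMap.codRestrict (LinearMap.range M) (v - v') h1 x)) : T) =
          v x - v' x := by
        rw [LinearEquiv.apply_symm_apply]
        rfl
      exact h3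
    rw [Dt_comp_right θ M v' (LinearMap.id + (LinearMap.inl ℂ S K) ∘ₗ r ∘ₗ (LinearMap.snd ℂ S K))
      M v, det_unip, mul_one]
    refine LinearMap.ext fun x => ?_
    have h3 : ((LinearMap.id : (S × K) →ₗ[ℂ] (S × K)) +
        (LinearMap.inl ℂ S K) ∘ₗ r ∘ₗ (LinearMap.snd ℂ S K)) x = (x.1 + r x.2, x.2) := by
      ext
      · rfl
      · change x.2 + (0 : K) = x.2
        rw [add_zero]
    rw [LinearMap.comp_apply, h3, LinearMap.coprod_apply, LinearMap.coprod_apply, map_add, h2]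
    abel
  -- normalise
  let e := LinearMap.equivOfDetNeZero (l ∘ₗ u) hu
  let e' := LinearMap.equivOfDetNeZero (l ∘ₗ u') hu'
  have he : ∀ x, l (u (e.symm x)) = x := fun x => e.apply_symm_apply x
  have he' : ∀ x, l (u' (e'.symm x)) = x := fun x => e'.apply_symm_apply x
  have h1 := key (u ∘ₗ (e.symm : K →ₗ[ℂ] K)) (u' ∘ₗ (e'.symm : K →ₗ[ℂ] K)) (by
    refine LinearMap.ext fun x => ?_
    simp only [LinearMap.comp_apply, LinearEquiv.coe_coe, he, he']) (by
    have h2 : l ∘ₗ u ∘ₗ (e.symm : K →ₗ[ℂ] K) = LinearMap.id := by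
      refine LinearMap.ext fun x => ?_
      simp only [LinearMap.comp_apply, LinearEquiv.coe_coe, he, LinearMap.id_apply]
    rw [h2, LinearMap.det_id]
    exact one_ne_zero)
  rw [Dt_comp_K, Dt_comp_K] at h1
  have h3 : LinearMap.det (l ∘ₗ u) * LinearMap.det (e.symm : K →ₗ[ℂ] K) = 1 := by
    rw [← LinearMap.det_comp]
    have h2 : (l ∘ₗ u) ∘ₗ (e.symm : K →ₗ[ℂ] K) = LinearMap.id := by
      refine LinearMap.ext fun x => ?_
      simp only [LinearMap.comp_apply, LinearEquiv.coe_coe, he, LinearMap.id_apply]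
    rw [h2, LinearMap.det_id]
  have h3' : LinearMap.det (l ∘ₗ u') * LinearMap.det (e'.symm : K →ₗ[ℂ] K) = 1 := by
    rw [← LinearMap.det_comp]
    have h2 : (l ∘ₗ u') ∘ₗ (e'.symm : K →ₗ[ℂ] K) = LinearMap.id := by
      refine LinearMap.ext fun x => ?_
      simp only [LinearMap.comp_apply, LinearEquiv.coe_coe, he', LinearMap.id_apply]
    rw [h2, LinearMap.det_id]
  rw [eq_inv_of_mul_eq_one_right h3, eq_inv_of_mul_eq_one_right h3'] at h1
  rw [div_eq_mul_inv, div_eq_mul_inv]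
  exact h1

end H18.Adj
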