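import Pool.Agent.H18.Adj.Par
import Pool.Agent.H18.Adj.Lin

/-!
# Derivatives of lifts
-/

set_option autoImplicit false
set_option linter.unusedSectionVars false

namespace H18.Adj

open MvPolynomial Q47.FL H18.GIT Filter
open scoped Topology

section unip

variable {V : Type*} [AddCommGroup V] [Module ℂ V] [FiniteDimensional ℂ V]

theorem det_unip' (n : V →ₗ[ℂ] V) (hn : n ∘ₗ n = 0) (D : V ≃ₗ[ℂ] V)
    (hD : ∀ x, D (n (D.symm x)) = (2 : ℂ) • n x) : LinearMap.det (LinearMap.id + n) = 1 := by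
  have hnn : ∀ x, n (n x) = 0 := fun x => by
    rw [← LinearMap.comp_apply, hn, LinearMap.zero_apply]
  have h1 : LinearMap.det (LinearMap.id + (2 : ℂ) • n) =
      LinearMap.det (LinearMap.id + n) * LinearMap.det (LinearMap.id + n) := by
    rw [← LinearMap.det_comp]
    congr 1
    refine LinearMap.ext fun x => ?_
    simp only [LinearMap.add_apply, LinearMap.id_apply, LinearMap.comp_apply, map_add, hnn, two_smul]
    abel
  have h2 : LinearMap.id + (2 : ℂ) • n = (D : V →ₗ[ℂ] V) ∘ₗ (LinearMap.id + n) ∘ₗ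
      (D.symm : V →ₗ[ℂ] V) := by
    refine LinearMap.ext fun x => ?_
    simp only [LinearMap.add_apply, LinearMap.id_apply, LinearMap.smul_apply, LinearMap.comp_apply,
      LinearEquiv.coe_coe, map_add, hD, D.apply_symm_apply]
  have h3 : LinearMap.det (LinearMap.id + (2 : ℂ) • n) = LinearMap.det (LinearMap.id + n) := by
    rw [h2, LinearMap.det_conj]
  have h4 : LinearMap.det (LinearMap.id + n) * LinearMap.det (LinearMap.id - n) = 1 := by
    rw [← LinearMap.det_comp]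
    have h5 : (LinearMap.id + n) ∘ₗ (LinearMap.id - n) = LinearMap.id := by
      refine LinearMap.ext fun x => ?_
      simp only [LinearMap.add_apply, LinearMap.id_apply, LinearMap.sub_apply, LinearMap.comp_apply,
        map_sub, hnn]
      abel
    rw [h5, LinearMap.det_id]
  have h5 : LinearMap.det (LinearMap.id + n) ≠ 0 := left_ne_zero_of_mul_eq_one h4
  rw [h3] at h1
  exact (mul_left_cancel₀ h5 (by rw [← h1, mul_one])).symm

/-- The determinant of a block triangular map. -/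
theorem det_block {V W : Type*} [AddCommGroup V] [Module ℂ V] [FiniteDimensional ℂ V]
    [AddCommGroup W] [Module ℂ W] [FiniteDimensional ℂ W] (C : V →ₗ[ℂ] V) (R : V →ₗ[ℂ] W)
    (A : W →ₗ[ℂ] W) (hA : LinearMap.det A ≠ 0) (T₀ : (V × W) →ₗ[ℂ] (V × W))
    (h : ∀ v w, T₀ (v, w) = (C v, R v + A w)) :
    LinearMap.det T₀ = LinearMap.det C * LinearMap.det A := by
  let e := LinearMap.equivOfDetNeZero A hA
  have he : ∀ x, A (e.symm x) = x := fun x => e.apply_symm_apply x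
  set n : (V × W) →ₗ[ℂ] (V × W) := (LinearMap.inr ℂ V W) ∘ₗ ((e.symm : W →ₗ[ℂ] W) ∘ₗ R) ∘ₗ
    (LinearMap.fst ℂ V W) with hn
  have hn1 : ∀ x, n x = (0, e.symm (R x.1)) := fun x => rfl
  have h1 : T₀ = (C.prodMap A) ∘ₗ (LinearMap.id + n) := by
    refine LinearMap.ext fun x => ?_
    obtain ⟨v, w⟩ := x
    rw [h, LinearMap.comp_apply, LinearMap.add_apply, LinearMap.id_apply, hn1]
    simp only [Prod.mk_add_mk, add_zero, LinearMap.prodMap_apply, map_add, he]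
    rw [add_comm]
  have h2 : LinearMap.det (LinearMap.id + n) = 1 := by
    refine det_unip' n ?_ ((LinearEquiv.refl ℂ V).prodCongr
      (LinearEquiv.smulOfNeZero ℂ W (2 : ℂ) two_ne_zero)) fun x => ?_
    · refine LinearMap.ext fun x => ?_
      rw [LinearMap.comp_apply, hn1, hn1]
      simp
    · rw [hn1, hn1]
      change ((0 : V), (2 : ℂ) • e.symm (R x.1)) = (2 : ℂ) • ((0 : V), e.symm (R x.1))
      rw [Prod.smul_mk, smul_zero]
  rw [h1, LinearMap.det_comp, LinearMap.det_prodMap, h2, mul_one]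

end unip

attribute [local instance] Matrix.linftyOpNormedRing Matrix.linftyOpNormedAlgebra

variable {q : ℕ} {b : Fin q → ℕ}

/-- The strictly lower blocks as a continuous linear map. -/
noncomputable def lowL (b : Fin q → ℕ) : Matrix (Fin q) (Fin q) ℂ →L[ℂ] (Low b → ℂ) :=
  LinearMap.toContinuousLinearMap
    { toFun := low b
      map_add' := low_add
      map_smul' := low_smul }

theorem lowL_apply (X : Matrix (Fin q) (Fin q) ℂ) : lowL b X = low b X := rfl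

/-- The embedding as a continuous linear map. -/
noncomputable def embL (b : Fin q → ℕ) : (Low b → ℂ) →L[ℂ] Matrix (Fin q) (Fin q) ℂ :=
  LinearMap.toContinuousLinearMap
    { toFun := emb b
      map_add' := emb_add
      map_smul' := emb_smul }

theorem embL_apply (y : Low b → ℂ) : embL b y = emb b y := rfl

section abstract

variable {E T : Type*} [NormedAddCommGroup E] [NormedSpace ℂ E] [NormedAddCommGroup T]
  [NormedSpace ℂ T]

/-- The derivative of the coordinates. -/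
theorem hasFDerivAt_coord {P : E → T} {P' : E →L[ℂ] T} {g : E → Matrix (Fin q) (Fin q) ℂ}
    {g' : E →L[ℂ] Matrix (Fin q) (Fin q) ℂ} {z : E} (hP : HasFDerivAt P P' z)
    (hg : HasFDerivAt g g' z) (X : Matrix (Fin q) (Fin q) ℂ) :
    HasFDerivAt (fun z => (P z, low b (X * g z)))
      (P'.prod ((lowL b).comp ((ContinuousLinearMap.mul ℂ _ X).comp g'))) z := by
  apply hP.prodMk
  have h1 := ((lowL b).comp (ContinuousLinearMap.mul ℂ _ X)).hasFDerivAt.comp z hg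
  exact h1

/-- The derivative of an invariant function along the parabolic group. -/
theorem deriv_bt {Ξ : T × Matrix (Fin q) (Fin q) ℂ → ℂ}
    {L : (T × Matrix (Fin q) (Fin q) ℂ) →L[ℂ] ℂ} {z : T} {g : Matrix (Fin q) (Fin q) ℂ}
    (hΞ : HasFDerivAt Ξ L (z, g)) (h0 : Ξ (z, g) = 0)
    (hinv : ∀ p : Matrix (Fin q) (Fin q) ℂ, p.BlockTriangular b → p.det ≠ 0 →
      ∃ c : ℂ, ∀ h, Ξ (z, h * p) = c * Ξ (z, h))
    {ξ : Matrix (Fin q) (Fin q) ℂ} (hξ : ξ.BlockTriangular b) : L (0, g * ξ) = 0 := by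
  -- the curve `t ↦ g (1 + t ξ)`
  have h1 : HasDerivAt (fun t : ℂ => (z, g * (1 + t • ξ))) ((0 : T), g * ξ) 0 := by
    apply HasDerivAt.prodMk (hasDerivAt_const _ _)
    have h2 := (hasDerivAt_id (0 : ℂ)).smul_const ξ
    have h3 := (h2.const_add (1 : Matrix (Fin q) (Fin q) ℂ)).const_mul g
    rw [one_smul] at h3
    exact h3
  have h2 : HasDerivAt (fun t : ℂ => Ξ (z, g * (1 + t • ξ))) (L (0, g * ξ)) 0 := by
    have h3 : HasFDerivAt Ξ L ((fun t : ℂ => (z, g * (1 + t • ξ))) 0) := by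
      simpa using hΞ
    exact h3.comp_hasDerivAt 0 h1
  have h3 : (fun t : ℂ => Ξ (z, g * (1 + t • ξ))) =ᶠ[𝓝 0] fun _ => (0 : ℂ) := by
    have hc : ContinuousAt (fun t : ℂ => (1 + t • ξ).det) 0 := by
      apply Continuous.continuousAt
      apply Continuous.matrix_det
      fun_prop
    have h4 : ∀ᶠ t in 𝓝 (0 : ℂ), (1 + t • ξ).det ≠ 0 := by
      apply hc.eventually_ne
      simp
    filter_upwards [h4] with t ht
    have hbt : (1 + t • ξ).BlockTriangular b := by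
      intro i j hij
      rw [Matrix.add_apply, Matrix.smul_apply, hξ hij, smul_zero, add_zero]
      exact Matrix.one_apply_ne (fun h => by rw [h] at hij; exact lt_irrefl _ hij)
    obtain ⟨c, hc⟩ := hinv _ hbt ht
    rw [hc, h0, mul_zero]
  have h4 : HasDerivAt (fun t : ℂ => Ξ (z, g * (1 + t • ξ))) 0 0 :=
    (hasDerivAt_const (0 : ℂ) (0 : ℂ)).congr_of_eventuallyEq h3
  exact h2.unique h4

/-- The value on a vector depends only on the lower part. -/
theorem deriv_low {L : (T × Matrix (Fin q) (Fin q) ℂ) →L[ℂ] ℂ} {g : Matrix (Fin q) (Fin q) ℂ}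
    (hL : ∀ ξ : Matrix (Fin q) (Fin q) ℂ, ξ.BlockTriangular b → L (0, g * ξ) = 0) (v : T)
    (ζ : Matrix (Fin q) (Fin q) ℂ) : L (v, g * ζ) = L (v, g * emb b (low b ζ)) := by
  have h1 : (v, g * ζ) = (v, g * emb b (low b ζ)) + ((0 : T), g * (ζ - emb b (low b ζ))) := by
    rw [Prod.mk_add_mk, add_zero, ← mul_add, add_sub_cancel]
  rw [h1, map_add, hL _ (bt_sub_emb ζ), add_zero]

/-- The differentials vanish on the tangent vectors. -/
theorem deriv_zero {Ξ : T × Matrix (Fin q) (Fin q) ℂ → ℂ}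
    {L : (T × Matrix (Fin q) (Fin q) ℂ) →L[ℂ] ℂ} {P : E → T} {P' : E →L[ℂ] T}
    {g : E → Matrix (Fin q) (Fin q) ℂ} {g' : E →L[ℂ] Matrix (Fin q) (Fin q) ℂ} {z : E}
    (hP : HasFDerivAt P P' z) (hg : HasFDerivAt g g' z) (hΞ : HasFDerivAt Ξ L (P z, g z))
    (hdet : (g z).det ≠ 0) (h0 : ∀ᶠ z' in 𝓝 z, Ξ (P z', g z') = 0)
    (hL : ∀ ξ : Matrix (Fin q) (Fin q) ℂ, ξ.BlockTriangular b → L (0, g z * ξ) = 0) (w : E) :
    L (P' w, g z * emb b (low b ((g z)⁻¹ * g' w))) = 0 := by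
  rw [← deriv_low hL, ← mul_assoc, Matrix.mul_nonsing_inv _ (isUnit_iff_ne_zero.2 hdet), one_mul]
  have h1 : HasFDerivAt (fun z' => Ξ (P z', g z')) (L.comp (P'.prod g')) z :=
    hΞ.comp z (hP.prodMk hg)
  have h2 : HasFDerivAt (fun z' => Ξ (P z', g z')) (0 : E →L[ℂ] ℂ) z :=
    (hasFDerivAt_const (0 : ℂ) z).congr_of_eventuallyEq h0
  have h3 := h1.unique h2
  exact ContinuousLinearMap.ext_iff.1 h3 w

/-- The change of the lift. -/
theorem deriv_change {P₁ : E → T} {P₁' : E →L[ℂ] T} {g g₁ : E → Matrix (Fin q) (Fin q) ℂ}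
    {g' g₁' : E →L[ℂ] Matrix (Fin q) (Fin q) ℂ} {z : E} {A : T → Matrix (Fin q) (Fin q) ℂ}
    {A' : T →L[ℂ] Matrix (Fin q) (Fin q) ℂ} (hP₁ : HasFDerivAt P₁ P₁' z)
    (hg : HasFDerivAt g g' z) (hg₁ : HasFDerivAt g₁ g₁' z) (hA : HasFDerivAt A A' (P₁ z))
    (hdet : (g z).det ≠ 0) (hdet₁ : (g₁ z).det ≠ 0) (hdetA : (A (P₁ z)).det ≠ 0)
    {p : Matrix (Fin q) (Fin q) ℂ} (hp : p.BlockTriangular b) (hgp : g z = A (P₁ z) * g₁ z * p)
    (hev : ∀ᶠ z' in 𝓝 z, ∃ p : Matrix (Fin q) (Fin q) ℂ, p.BlockTriangular b ∧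
      g z' = A (P₁ z') * g₁ z' * p) (w : E) :
    low b ((g z)⁻¹ * g' w) = low b (p⁻¹ * ((g₁ z)⁻¹ * (A (P₁ z))⁻¹ * A' (P₁' w) * g₁ z +
      emb b (low b ((g₁ z)⁻¹ * g₁' w))) * p) := by
  set k : E → Matrix (Fin q) (Fin q) ℂ := fun z => A (P₁ z) * g₁ z with hk
  have hk' : HasFDerivAt k _ z := (hA.comp z hP₁).mul' hg₁
  have hkdet : (k z).det ≠ 0 := by
    simp only [hk]
    rw [Matrix.det_mul]
    exact mul_ne_zero hdetA hdet₁
  have hku : IsUnit (k z) := (Matrix.isUnit_iff_isUnit_det _).2 (isUnit_iff_ne_zero.2 hkdet)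
  set r : E → Matrix (Fin q) (Fin q) ℂ := fun z => Ring.inverse (k z) * g z with hr
  have hrd : DifferentiableAt ℂ r z := by
    have h1 : DifferentiableAt ℂ (Ring.inverse : Matrix (Fin q) (Fin q) ℂ → _) (k z) :=
      differentiableAt_inverse hku
    exact (h1.comp z hk'.differentiableAt).mul hg.differentiableAt
  obtain ⟨r', hr'⟩ := hrd
  have hkunit : ∀ᶠ z' in 𝓝 z, IsUnit (k z') := by
    have h1 : {x : Matrix (Fin q) (Fin q) ℂ | IsUnit x} ∈ 𝓝 (k z) :=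
      Units.isOpen.mem_nhds hku
    exact hk'.continuousAt h1
  have hgk : ∀ᶠ z' in 𝓝 z, g z' = k z' * r z' := by
    filter_upwards [hkunit] with z' hz'
    simp only [hr]
    rw [← mul_assoc, Ring.mul_inverse_cancel _ hz', one_mul]
  have hrbt : ∀ᶠ z' in 𝓝 z, low b (r z') = 0 := by
    filter_upwards [hkunit, hev] with z' hz' hz''
    obtain ⟨p', hp', hgp'⟩ := hz''
    have h1 : r z' = p' := by
      simp only [hr]
      rw [hgp']
      change Ring.inverse (k z') * (k z' * p') = p'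
      rw [← mul_assoc, Ring.inverse_mul_cancel _ hz', one_mul]
    rw [h1]
    exact low_eq_zero_iff.2 hp'
  have hrz : r z = p := by
    simp only [hr]
    rw [hgp]
    change Ring.inverse (k z) * (k z * p) = p
    rw [← mul_assoc, Ring.inverse_mul_cancel _ hku, one_mul]
  have hr'bt : ∀ w, (r' w).BlockTriangular b := by
    intro w
    rw [← low_eq_zero_iff]
    have h1 : HasFDerivAt (fun z' => lowL b (r z')) ((lowL b).comp r') z :=
      (lowL b).hasFDerivAt.comp z hr'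
    have h2 : HasFDerivAt (fun z' => lowL b (r z')) (0 : E →L[ℂ] (Low b → ℂ)) z :=
      (hasFDerivAt_const (0 : Low b → ℂ) z).congr_of_eventuallyEq hrbt
    exact ContinuousLinearMap.ext_iff.1 (h1.unique h2) w
  have hg'' : HasFDerivAt g _ z := (hk'.mul' hr').congr_of_eventuallyEq hgk
  have h1 : g' w = k z * r' w + (A (P₁ z) * g₁' w + A' (P₁' w) * g₁ z) * r z := by
    rw [hg.unique hg'']
    rfl
  have hpdet : p.det ≠ 0 := by
    intro h
    apply hdet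
    rw [hgp, Matrix.det_mul, h, mul_zero]
  have hpu : IsUnit p.det := isUnit_iff_ne_zero.2 hpdet
  have hgu : IsUnit (g₁ z).det := isUnit_iff_ne_zero.2 hdet₁
  have hAu : IsUnit (A (P₁ z)).det := isUnit_iff_ne_zero.2 hdetA
  have h2 : (g z)⁻¹ * g' w = p⁻¹ * r' w + p⁻¹ * ((g₁ z)⁻¹ * (A (P₁ z))⁻¹ * A' (P₁' w) * g₁ z +
      (g₁ z)⁻¹ * g₁' w) * p := by
    rw [h1, hgp, hrz]
    simp only [hk]
    rw [Matrix.mul_inv_rev, Matrix.mul_inv_rev]
    simp only [mul_add, add_mul]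
    have e1 : p⁻¹ * ((g₁ z)⁻¹ * (A (P₁ z))⁻¹) * (A (P₁ z) * g₁ z * r' w) = p⁻¹ * r' w := by
      rw [Matrix.mul_assoc p⁻¹, Matrix.mul_assoc (g₁ z)⁻¹, Matrix.mul_assoc (A (P₁ z)),
        ← Matrix.mul_assoc (A (P₁ z))⁻¹, Matrix.nonsing_inv_mul _ hAu, Matrix.one_mul,
        ← Matrix.mul_assoc (g₁ z)⁻¹, Matrix.nonsing_inv_mul _ hgu, Matrix.one_mul]
    have e2 : p⁻¹ * ((g₁ z)⁻¹ * (A (P₁ z))⁻¹) * (A (P₁ z) * g₁' w * p) =
        p⁻¹ * ((g₁ z)⁻¹ * g₁' w) * p := by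
      rw [Matrix.mul_assoc p⁻¹, Matrix.mul_assoc (g₁ z)⁻¹, Matrix.mul_assoc (A (P₁ z)),
        ← Matrix.mul_assoc (A (P₁ z))⁻¹, Matrix.nonsing_inv_mul _ hAu, Matrix.one_mul]
      simp only [Matrix.mul_assoc]
    rw [e1, e2]
    simp only [Matrix.mul_assoc]
    abel
  rw [h2, low_add, low_eq_zero_iff.2 ((bt_inv hp hpdet).mul (hr'bt w)), zero_add]
  simp only [mul_add, add_mul, low_add]
  rw [low_conj hp hpdet ((g₁ z)⁻¹ * g₁' w)]

/-- The change of the differentials. -/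
theorem deriv_change_normal {Ξ Ξ₁ : T × Matrix (Fin q) (Fin q) ℂ → ℂ}
    {L L₁ : (T × Matrix (Fin q) (Fin q) ℂ) →L[ℂ] ℂ} {z : T} {τ : T → T} {C : T →L[ℂ] T}
    {A : T → Matrix (Fin q) (Fin q) ℂ} {A' : T →L[ℂ] Matrix (Fin q) (Fin q) ℂ}
    {g g₁ p : Matrix (Fin q) (Fin q) ℂ} (hτ : HasFDerivAt τ C z) (hA : HasFDerivAt A A' z)
    (hgp : g = A z * g₁ * p) (hdetA : (A z).det ≠ 0) (hdet₁ : g₁.det ≠ 0) (hdetp : p.det ≠ 0)
    (hΞ : HasFDerivAt Ξ L (τ z, g)) (hΞ₁ : HasFDerivAt Ξ₁ L₁ (z, g₁)) (h0 : Ξ₁ (z, g₁) = 0)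
    {e : T → ℂ} (he : DifferentiableAt ℂ e z) {χ : ℂ}
    (hev : ∀ᶠ z' in 𝓝 z, ∀ h, Ξ (τ z', A z' * h * p) = e z' * χ * Ξ₁ (z', h))
    (hL : ∀ ξ : Matrix (Fin q) (Fin q) ℂ, ξ.BlockTriangular b → L (0, g * ξ) = 0) (v : T)
    (y : Low b → ℂ) :
    L (C v, g * emb b (low b (p⁻¹ * (g₁⁻¹ * (A z)⁻¹ * A' v * g₁ + emb b y) * p))) =
      e z * χ * L₁ (v, g₁ * emb b y) := by
  obtain ⟨e', he'⟩ := he
  have hAu : IsUnit (A z).det := isUnit_iff_ne_zero.2 hdetA
  have hgu : IsUnit g₁.det := isUnit_iff_ne_zero.2 hdet₁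
  have hpu : IsUnit p.det := isUnit_iff_ne_zero.2 hdetp
  rw [← deriv_low hL]
  -- the left side
  have h1 : HasFDerivAt (fun x : T × Matrix (Fin q) (Fin q) ℂ => A x.1 * x.2) _ (z, g₁) :=
    HasFDerivAt.mul' (hA.comp (z, g₁) (hasFDerivAt_fst (p := (z, g₁))))
      (hasFDerivAt_snd (p := (z, g₁)))
  have h2 : HasFDerivAt (fun x : T × Matrix (Fin q) (Fin q) ℂ => A x.1 * x.2 * p) _ (z, g₁) :=
    h1.mul_const' p
  have h3 : HasFDerivAt (fun x : T × Matrix (Fin q) (Fin q) ℂ => τ x.1) _ (z, g₁) :=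
    hτ.comp (z, g₁) (hasFDerivAt_fst (p := (z, g₁)))
  have h4 : HasFDerivAt (fun x : T × Matrix (Fin q) (Fin q) ℂ => Ξ (τ x.1, A x.1 * x.2 * p)) _
      (z, g₁) := HasFDerivAt.comp (z, g₁) (by rw [hgp] at hΞ; exact hΞ) (h3.prodMk h2)
  -- the right side
  have h5 : HasFDerivAt (fun x : T × Matrix (Fin q) (Fin q) ℂ => e x.1 * χ * Ξ₁ x) _ (z, g₁) :=
    ((he'.comp (z, g₁) (hasFDerivAt_fst (p := (z, g₁)))).mul_const χ).mul hΞ₁
  have h6 : (fun x : T × Matrix (Fin q) (Fin q) ℂ => Ξ (τ x.1, A x.1 * x.2 * p)) =ᶠ[𝓝 (z, g₁)]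
      fun x => e x.1 * χ * Ξ₁ x := by
    have h7 : Tendsto Prod.fst (𝓝 (z, g₁)) (𝓝 z) := continuous_fst.continuousAt
    filter_upwards [h7.eventually hev] with x hx
    exact hx x.2
  have h7 := h4.unique (h5.congr_of_eventuallyEq h6)
  have h8 := ContinuousLinearMap.ext_iff.1 h7 (v, g₁ * emb b y)
  have h9 : g * (p⁻¹ * (g₁⁻¹ * (A z)⁻¹ * A' v * g₁ + emb b y) * p) =
      (A z * (g₁ * emb b y) + A' v * g₁) * p := by
    rw [hgp]
    simp only [mul_add, add_mul, Matrix.mul_assoc]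
    rw [← Matrix.mul_assoc p p⁻¹, ← Matrix.mul_assoc p p⁻¹, Matrix.mul_nonsing_inv _ hpu,
      Matrix.one_mul, Matrix.one_mul, ← Matrix.mul_assoc g₁ g₁⁻¹, Matrix.mul_nonsing_inv _ hgu,
      Matrix.one_mul, ← Matrix.mul_assoc (A z) (A z)⁻¹, Matrix.mul_nonsing_inv _ hAu,
      Matrix.one_mul]
    abel
  rw [h9]
  have h10 : (e z * χ) * L₁ (v, g₁ * emb b y) = (e z * χ) * L₁ (v, g₁ * emb b y) +
      Ξ₁ (z, g₁) * (χ * e' v) := by rw [h0, zero_mul, add_zero]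
  rw [h10]
  exact h8

end abstract

end H18.Adj
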