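import Pool.Agent.H18.Adj.Main

/-!
# The canonical bundle of a complete intersection
-/

set_option autoImplicit false
set_option linter.unusedSectionVars false

namespace H18.Adj

open MvPolynomial Q47.FL H18.GIT Filter
open scoped Manifold ContDiff Topology

universe u v w x

variable {n : ℕ} {B : Type u} [TopologicalSpace B] [ChartedSpace (Fin n → ℂ) B]
  [IsManifold 𝓘(ℂ, Fin n → ℂ) ω B] {q : ℕ} {ι : Type v} {Y : FlagBundle n B q ι} {b : Fin q → ℕ}
  {k : ℕ} {X : Type w} [TopologicalSpace X] [ChartedSpace (Fin k → ℂ) X]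
  [IsManifold 𝓘(ℂ, Fin k → ℂ) ω X] {κ : Type x} {h : FlagMap Y b k X κ}
  {r : ℕ} {F : Fin r → ι → B → MvPolynomial (Fin q × Fin q) ℂ}

theorem semi_prod {d : Fin r → ℕ → ℕ} {f : Fin r → MvPolynomial (Fin q × Fin q) ℂ}
    (hf : ∀ t, IsSemiInvariant b (d t) (f t)) :
    IsSemiInvariant b (fun j => ∑ t, d t j) (∏ t, f t) where
  scale := fun g j s => by
    have h1 := fun t => (hf t).scale g j s
    simp only [ev, map_prod] at h1 ⊢
    rw [Finset.prod_congr rfl fun t _ => h1 t, Finset.prod_mul_distrib, Finset.prod_pow_eq_pow_sum]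
  shear := fun g j l s hjl hb => by
    have h1 := fun t => (hf t).shear g j l s hjl hb
    simp only [ev, map_prod] at h1 ⊢
    exact Finset.prod_congr rfl fun t _ => h1 t

omit [IsManifold 𝓘(ℂ, Fin n → ℂ) ω B] in
theorem holo_prod {U : Set B} {P : Fin r → B → MvPolynomial (Fin q × Fin q) ℂ}
    (hP : ∀ t α, Holo (n := n) U fun p => coeff α (P t p)) (s : Finset (Fin r)) :
    ∀ α, Holo (n := n) U fun p => coeff α (∏ t ∈ s, P t p) := by
  classical
  induction s using Finset.induction_on with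
  | empty =>
    intro α
    simp only [Finset.prod_empty]
    exact Holo.const _
  | insert t s ht ih =>
    intro α
    simp only [Finset.prod_insert ht, coeff_mul]
    exact Holo.sum fun y _ => (hP t y.1).mul (ih y.2)

omit [IsManifold 𝓘(ℂ, Fin n → ℂ) ω B] in
theorem holo_prod' {U : Set B} {P : Fin r → B → ℂ}
    (hP : ∀ t, Holo (n := n) U (P t)) (s : Finset (Fin r)) :
    Holo (n := n) U fun p => ∏ t ∈ s, P t p := by
  classical
  induction s using Finset.induction_on with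
  | empty =>
    simp only [Finset.prod_empty]
    exact Holo.const _
  | insert t s ht ih =>
    simp only [Finset.prod_insert ht]
    exact (hP t).mul ih

omit [IsManifold 𝓘(ℂ, Fin n → ℂ) ω B] in
theorem isDivisor_prod {d : Fin r → ℕ → ℕ} {e : Fin r → ι → ι → B → ℂ}
    (hF : ∀ t, Y.IsDivisor b (d t) (F t) (e t)) :
    Y.IsDivisor b (fun j => ∑ t, d t j) (fun i p => ∏ t, F t i p)
      (fun i j p => ∏ t, e t i j p) where
  holo := fun i => holo_prod (fun t => (hF t).holo i) Finset.univ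
  semi := fun i p hp => semi_prod fun t => (hF t).semi i p hp
  holo_e := fun i j => holo_prod' (fun t => (hF t).holo_e i j) Finset.univ
  e_ne_zero := fun i j p hp => Finset.prod_ne_zero_iff.2 fun t _ => (hF t).e_ne_zero i j p hp
  eq := fun i j p hp g => by
    have h1 := fun t => (hF t).eq i j p hp g
    simp only [ev, map_prod] at h1 ⊢
    rw [Finset.prod_congr rfl fun t _ => h1 t, Finset.prod_mul_distrib]

/-- The relative form on `X` which is given by `G`. -/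
noncomputable def rform (θ : TS n b ≃ₗ[ℂ] ((Fin k → ℂ) × (Fin r → ℂ)))
    (F : Fin r → ι → B → MvPolynomial (Fin q × Fin q) ℂ)
    (h : FlagMap Y b k X κ) (N : ℕ) (G : ι → B → MvPolynomial (Fin q × Fin q) ℂ)
    (ψ : OpenPartialHomeomorph X (Fin k → ℂ)) (φ : OpenPartialHomeomorph B (Fin n → ℂ)) (p : X) : ℂ :=
  form θ F h N G (h.cover p).choose ψ φ p

section

variable (θ : TS n b ≃ₗ[ℂ] ((Fin k → ℂ) × (Fin r → ℂ)))
  (hb : Monotone b) {d : Fin r → ℕ → ℕ} {e : Fin r → ι → ι → B → ℂ}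
  (hF : ∀ t, Y.IsDivisor b (d t) (F t) (e t)) (hci : h.IsCompleteIntersection F) {N : ℕ}
  {G : ι → B → MvPolynomial (Fin q × Fin q) ℂ}
  (hG : Y.IsRelativeSection b 1 (fun j => ∑ t, d t j) (fun i j p => ∏ t, e t i j p) N G)

include hb hF hci hG

theorem rform_eq {a : κ} {p : X} (hp : p ∈ h.W a)
    {ψ : OpenPartialHomeomorph X (Fin k → ℂ)} (hψ : ψ ∈ atlas (Fin k → ℂ) X) (hpψ : p ∈ ψ.source)
    {φ : OpenPartialHomeomorph B (Fin n → ℂ)} (hφ : φ ∈ atlas (Fin n → ℂ) B)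
    (hpφ : h.π p ∈ φ.source) : rform θ F h N G ψ φ p = form θ F h N G a ψ φ p :=
  form_change θ hb hF hci hG (h.cover p).choose_spec hp hψ hpψ hφ hpφ

theorem isRelativeForm : IsRelativeForm h.π N (rform θ F h N G) where
  holo := fun ψ hψ φ hφ p hp => by
    obtain ⟨a, ha⟩ := h.cover p
    have h1 := contMDiffAt_form θ hb hF hci hG ha hψ hp.1 hφ hp.2
    refine (h1.congr_of_eventuallyEq ?_).contMDiffWithinAt
    have h2 : ∀ᶠ p' in 𝓝 p, h.π p' ∈ φ.source :=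
      (h.holo_π p).continuousAt.preimage_mem_nhds (φ.open_source.mem_nhds hp.2)
    filter_upwards [(h.isOpen a).mem_nhds ha, ψ.open_source.mem_nhds hp.1, h2] with p' h3 h4 h5
    exact rform_eq θ hb hF hci hG h3 hψ h4 hφ h5
  eq := fun ψ hψ ψ' hψ' φ hφ φ' hφ' p hp hp' => by
    obtain ⟨a, ha⟩ := h.cover p
    have hU := h.mem a p ha
    rw [rform_eq θ hb hF hci hG ha hψ hp.1 hφ hp'.1, rform_eq θ hb hF hci hG ha hψ' hp.2 hφ' hp'.2,
      form, form, ← res_trans θ hb hF hci ha hψ hψ' hp.1 hp.2,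
      ← jac_mul hφ hφ' (Y.mem_atlas (h.idx a)) hp'.1 hp'.2 hU]
    ring

theorem rform_ne_zero {a : κ} {p : X} (hp : p ∈ h.W a)
    {ψ : OpenPartialHomeomorph X (Fin k → ℂ)} (hψ : ψ ∈ atlas (Fin k → ℂ) X) (hpψ : p ∈ ψ.source)
    {φ : OpenPartialHomeomorph B (Fin n → ℂ)} (hφ : φ ∈ atlas (Fin n → ℂ) B)
    (hpφ : h.π p ∈ φ.source) (hne : ev (h.g a p) (G (h.idx a) (h.π p)) ≠ 0) :
    rform θ F h N G ψ φ p ≠ 0 := by
  rw [rform_eq θ hb hF hci hG hp hψ hpψ hφ hpφ, form]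
  exact mul_ne_zero (mul_ne_zero hne (pow_ne_zero _ (res_ne_zero θ hb hF hci hp hψ hpψ)))
    (pow_ne_zero _ (jac_ne_zero hφ (Y.mem_atlas _) hpφ (h.mem a p hp)))

end

/-- The product of a relative form with a form on the base. -/
theorem isCanonicalForm_mul {π : X → B} (hπ : ContMDiff 𝓘(ℂ, Fin k → ℂ) 𝓘(ℂ, Fin n → ℂ) ω π)
    {N N' : ℕ}
    {S : OpenPartialHomeomorph X (Fin k → ℂ) → OpenPartialHomeomorph B (Fin n → ℂ) → X → ℂ}
    (hS : IsRelativeForm π N S) {s : OpenPartialHomeomorph B (Fin n → ℂ) → B → ℂ}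
    (hs : IsCanonicalForm n B N' s) :
    IsCanonicalForm k X (N * N') fun ψ p =>
      S ψ (chartAt (Fin n → ℂ) (π p)) p ^ N' * s (chartAt (Fin n → ℂ) (π p)) (π p) ^ N := by
  -- the independence of the chart of the base
  have key : ∀ ψ ∈ atlas (Fin k → ℂ) X, ∀ φ ∈ atlas (Fin n → ℂ) B, ∀ φ' ∈ atlas (Fin n → ℂ) B,
      ∀ p ∈ ψ.source, π p ∈ φ.source → π p ∈ φ'.source →
        S ψ φ p ^ N' * s φ (π p) ^ N = S ψ φ' p ^ N' * s φ' (π p) ^ N := by
    intro ψ hψ φ hφ φ' hφ' p hp hp1 hp2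
    have h1 := hS.eq ψ hψ ψ hψ φ hφ φ' hφ' p ⟨hp, hp⟩ ⟨hp1, hp2⟩
    rw [jac_self hp, one_pow, mul_one] at h1
    rw [h1, ← hs.eq φ hφ φ' hφ' (π p) ⟨hp1, hp2⟩]
    ring
  refine ⟨fun ψ hψ p hp => ?_, fun ψ hψ ψ' hψ' p hp => ?_⟩
  · set φ := chartAt (Fin n → ℂ) (π p) with hφ
    have hφ' : φ ∈ atlas (Fin n → ℂ) B := chart_mem_atlas _ _
    have hpφ : π p ∈ φ.source := mem_chart_source _ _
    have h2 : ∀ᶠ p' in 𝓝 p, π p' ∈ φ.source :=
      (hπ p).continuousAt.preimage_mem_nhds (φ.open_source.mem_nhds hpφ)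
    have hopen : IsOpen (ψ.source ∩ π ⁻¹' φ.source) :=
      ψ.open_source.inter (φ.open_source.preimage hπ.continuous)
    have h3 : ContMDiffAt 𝓘(ℂ, Fin k → ℂ) 𝓘(ℂ) ω (S ψ φ) p :=
      (hS.holo ψ hψ φ hφ').contMDiffAt (hopen.mem_nhds ⟨hp, hpφ⟩)
    have h4 : ContMDiffAt 𝓘(ℂ, Fin k → ℂ) 𝓘(ℂ) ω (fun p => s φ (π p)) p :=
      ((hs.holo φ hφ').contMDiffAt (φ.open_source.mem_nhds hpφ)).comp p (hπ p)
    refine (((h3.pow N').mul (h4.pow N)).congr_of_eventuallyEq ?_).contMDiffWithinAt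
    filter_upwards [ψ.open_source.mem_nhds hp, h2] with p' h5 h6
    exact key ψ hψ _ (chart_mem_atlas _ _) φ hφ' p' h5 (mem_chart_source _ _) h6
  · have h1 := hS.eq ψ hψ ψ' hψ' _ (chart_mem_atlas _ (π p)) _ (chart_mem_atlas _ (π p)) p hp
      ⟨mem_chart_source _ _, mem_chart_source _ _⟩
    rw [jac_self (mem_chart_source _ _), one_pow, mul_one] at h1
    rw [← h1]
    ring

end H18.Adj
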