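import Pool.Agent.H18.Adj.Res

/-!
# The residue and the adjunction formula
-/

set_option autoImplicit false
set_option linter.unusedSectionVars false

namespace H18.Adj

open MvPolynomial Q47.FL H18.GIT Filter
open scoped Manifold ContDiff Topology

universe u v w x

attribute [local instance] Matrix.linftyOpNormedRing Matrix.linftyOpNormedAlgebra

variable {n : ℕ} {B : Type u} [TopologicalSpace B] [ChartedSpace (Fin n → ℂ) B]
  [IsManifold 𝓘(ℂ, Fin n → ℂ) ω B] {q : ℕ} {ι : Type v} {Y : FlagBundle n B q ι} {b : Fin q → ℕ}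
  {k : ℕ} {X : Type w} [TopologicalSpace X] [ChartedSpace (Fin k → ℂ) X]
  [IsManifold 𝓘(ℂ, Fin k → ℂ) ω X] {κ : Type x} {h : FlagMap Y b k X κ}

/-- The coordinate space of `Y`. -/
abbrev TS (n : ℕ) (b : Fin q → ℕ) : Type := (Fin n → ℂ) × (Low b → ℂ)

variable {r : ℕ} {F : Fin r → ι → B → MvPolynomial (Fin q × Fin q) ℂ}

/-- The differentials of the equations. -/
noncomputable def lam (h : FlagMap Y b k X κ) (F : Fin r → ι → B → MvPolynomial (Fin q × Fin q) ℂ)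
    (a : κ) (p : X) : TS n b →ₗ[ℂ] (Fin r → ℂ) :=
  LinearMap.pi fun t => (h.normal (F t) a p : TS n b →ₗ[ℂ] ℂ)

theorem lam_apply (a : κ) (p : X) (c : TS n b) (t : Fin r) :
    lam h F a p c t = h.normal (F t) a p c := rfl

theorem exists_theta (h : FlagMap Y b k X κ) (hci : h.IsCompleteIntersection F) :
    Nonempty (TS n b ≃ₗ[ℂ] ((Fin k → ℂ) × (Fin r → ℂ))) := by
  apply FiniteDimensional.nonempty_linearEquiv_of_finrank_eq
  rw [Module.finrank_prod, Module.finrank_prod, Module.finrank_fin_fun, Module.finrank_fin_fun,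
    Module.finrank_fin_fun, Module.finrank_fintype_fun_eq_card]
  exact hci.dim.symm

theorem exists_u (hci : h.IsCompleteIntersection F) {a : κ} {p : X} (hp : p ∈ h.W a) :
    ∃ u : (Fin r → ℂ) →ₗ[ℂ] TS n b, LinearMap.det (lam h F a p ∘ₗ u) ≠ 0 := by
  have hsurj : LinearMap.range (lam h F a p) = ⊤ := by
    by_contra hne
    obtain ⟨f, hf0, hf⟩ := Submodule.exists_le_ker_of_lt_top _ (lt_top_iff_ne_top.2 hne)
    apply hf0
    have h1 := Fintype.linearIndependent_iff.1 (hci.smooth a p hp)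
      (fun t => f (Pi.single t 1)) (by
        refine ContinuousLinearMap.ext fun c => ?_
        have h2 : lam h F a p c ∈ LinearMap.range (lam h F a p) := ⟨c, rfl⟩
        have h3 : f (lam h F a p c) = 0 := hf h2
        have h4 := LinearMap.pi_apply_eq_sum_univ f (lam h F a p c)
        rw [h3] at h4
        have h5 : ∀ t, (Pi.single t 1 : Fin r → ℂ) = fun j => if t = j then 1 else 0 := by
          intro t
          funext j
          rw [Pi.single_apply]
          simp only [eq_comm]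
        have h6 : (∑ t, f (Pi.single t 1) • h.normal (F t) a p) c =
            ∑ t, lam h F a p c t • f (fun j => if t = j then 1 else 0) := by
          rw [sum_apply]
          apply Finset.sum_congr rfl
          intro t _
          rw [h5, lam_apply]
          change f _ * _ = _ * f _
          rw [mul_comm]
          rfl
        rw [h6, ← h4]
        rfl)
    refine LinearMap.pi_ext' fun t => ?_
    refine LinearMap.ext_ring ?_
    rw [LinearMap.comp_apply, LinearMap.single_apply]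
    exact h1 t
  obtain ⟨u, hu⟩ := LinearMap.exists_rightInverse_of_surjective (lam h F a p) hsurj
  refine ⟨u, ?_⟩
  rw [hu, LinearMap.det_id]
  exact one_ne_zero

variable (θ : TS n b ≃ₗ[ℂ] ((Fin k → ℂ) × (Fin r → ℂ)))

/-- The differential as a linear map. -/
noncomputable def df (h : FlagMap Y b k X κ) (ψ : OpenPartialHomeomorph X (Fin k → ℂ)) (a : κ)
    (p : X) : (Fin k → ℂ) →ₗ[ℂ] TS n b := (h.diff ψ a p : (Fin k → ℂ) →ₗ[ℂ] TS n b)

theorem df_apply (ψ : OpenPartialHomeomorph X (Fin k → ℂ)) (a : κ) (p : X) (w : Fin k → ℂ) :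
    df h ψ a p w = h.diff ψ a p w := rfl

open Classical in
/-- The residue. -/
noncomputable def res (F : Fin r → ι → B → MvPolynomial (Fin q × Fin q) ℂ)
    (h : FlagMap Y b k X κ) (ψ : OpenPartialHomeomorph X (Fin k → ℂ)) (a : κ) (p : X) : ℂ :=
  if H : ∃ u : (Fin r → ℂ) →ₗ[ℂ] TS n b, LinearMap.det (lam h F a p ∘ₗ u) ≠ 0 then
    Dt θ (df h ψ a p) H.choose / LinearMap.det (lam h F a p ∘ₗ H.choose) else 0

section

variable (hb : Monotone b) {d : Fin r → ℕ → ℕ} {e : Fin r → ι → ι → B → ℂ}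
  (hF : ∀ t, Y.IsDivisor b (d t) (F t) (e t)) (hci : h.IsCompleteIntersection F)

include hb hF hci

theorem lam_df {a : κ} {p : X} (hp : p ∈ h.W a) {ψ : OpenPartialHomeomorph X (Fin k → ℂ)}
    (hψ : ψ ∈ atlas (Fin k → ℂ) X) (hpψ : p ∈ ψ.source) : lam h F a p ∘ₗ df h ψ a p = 0 := by
  refine LinearMap.ext fun w => funext fun t => ?_
  exact normal_diff hb (hF t) hp (hci.zero t a) hψ hpψ w

omit hb hF in
theorem df_injective {a : κ} {p : X} (hp : p ∈ h.W a) {ψ : OpenPartialHomeomorph X (Fin k → ℂ)}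
    (hψ : ψ ∈ atlas (Fin k → ℂ) X) (hpψ : p ∈ ψ.source) : Function.Injective (df h ψ a p) := by
  have h1 := diff_trans (h := h) hp (chart_mem_atlas (Fin k → ℂ) p) hψ (mem_chart_source _ p) hpψ
  have h2 : Function.Injective (fderiv ℂ ((chartAt (Fin k → ℂ) p) ∘ ψ.symm) (ψ p)) := by
    have h3 : jac (chartAt (Fin k → ℂ) p) ψ p ≠ 0 :=
      jac_ne_zero (chart_mem_atlas (Fin k → ℂ) p) hψ (mem_chart_source _ p) hpψ
    exact (LinearMap.equivOfDetNeZero _ h3).injective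
  intro w w' hw
  rw [df_apply, df_apply, h1] at hw
  exact h2 (hci.immersion a p hp hw)

theorem res_eq {a : κ} {p : X} (hp : p ∈ h.W a) {ψ : OpenPartialHomeomorph X (Fin k → ℂ)}
    (hψ : ψ ∈ atlas (Fin k → ℂ) X) (hpψ : p ∈ ψ.source) {u : (Fin r → ℂ) →ₗ[ℂ] TS n b}
    (hu : LinearMap.det (lam h F a p ∘ₗ u) ≠ 0) :
    res θ F h ψ a p = Dt θ (df h ψ a p) u / LinearMap.det (lam h F a p ∘ₗ u) := by
  have H : ∃ u : (Fin r → ℂ) →ₗ[ℂ] TS n b, LinearMap.det (lam h F a p ∘ₗ u) ≠ 0 := ⟨u, hu⟩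
  rw [res, dif_pos H]
  exact Dt_indep θ (df_injective hci hp hψ hpψ) (lam_df hb hF hci hp hψ hpψ) H.choose_spec hu

theorem res_ne_zero {a : κ} {p : X} (hp : p ∈ h.W a) {ψ : OpenPartialHomeomorph X (Fin k → ℂ)}
    (hψ : ψ ∈ atlas (Fin k → ℂ) X) (hpψ : p ∈ ψ.source) : res θ F h ψ a p ≠ 0 := by
  obtain ⟨u, hu⟩ := exists_u hci hp
  rw [res_eq θ hb hF hci hp hψ hpψ hu]
  refine div_ne_zero ?_ hu
  -- the map is injective
  rw [Dt]
  have h1 : Function.Injective ((df h ψ a p).coprod u) := by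
    rw [injective_iff_map_eq_zero]
    intro x hx
    rw [LinearMap.coprod_apply] at hx
    have h2 := congrArg (lam h F a p) hx
    rw [map_add, map_zero] at h2
    have h3 : lam h F a p (df h ψ a p x.1) = 0 := by
      have := LinearMap.congr_fun (lam_df hb hF hci hp hψ hpψ) x.1
      exact this
    rw [h3, zero_add] at h2
    have h4 : x.2 = 0 := by
      apply (LinearMap.equivOfDetNeZero _ hu).injective
      rw [map_zero]
      exact h2
    rw [h4, map_zero, add_zero] at hx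
    have h5 : x.1 = 0 := by
      apply df_injective hci hp hψ hpψ
      rw [hx, map_zero]
    exact Prod.ext h5 h4
  intro h0
  have h2 : Function.Injective ((df h ψ a p).coprod u ∘ₗ (θ : TS n b →ₗ[ℂ] _)) :=
    h1.comp θ.injective
  have h3 := LinearMap.bot_lt_ker_of_det_eq_zero h0
  rw [LinearMap.ker_eq_bot.2 h2] at h3
  exact lt_irrefl _ h3

/-- The change of the chart of `X`. -/
theorem res_trans {a : κ} {p : X} (hp : p ∈ h.W a) {ψ ψ' : OpenPartialHomeomorph X (Fin k → ℂ)}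
    (hψ : ψ ∈ atlas (Fin k → ℂ) X) (hψ' : ψ' ∈ atlas (Fin k → ℂ) X) (hpψ : p ∈ ψ.source)
    (hpψ' : p ∈ ψ'.source) : res θ F h ψ a p * jac ψ ψ' p = res θ F h ψ' a p := by
  obtain ⟨u, hu⟩ := exists_u hci hp
  rw [res_eq θ hb hF hci hp hψ hpψ hu, res_eq θ hb hF hci hp hψ' hpψ' hu]
  have h1 : df h ψ' a p = df h ψ a p ∘ₗ
      (fderiv ℂ (ψ ∘ ψ'.symm) (ψ' p) : (Fin k → ℂ) →ₗ[ℂ] (Fin k → ℂ)) := by
    refine LinearMap.ext fun w => ?_
    rw [df_apply, diff_trans hp hψ hψ' hpψ hpψ']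
    rfl
  rw [h1, Dt_comp_S, jac]
  ring

/-- The change of the lift. -/
theorem res_change {a a' : κ} {p : X} (hp : p ∈ h.W a) (hp' : p ∈ h.W a')
    {R : Matrix (Fin q) (Fin q) ℂ} (hR : R.BlockTriangular b)
    (hgr : h.g a p = Y.A (h.idx a) (h.idx a') (h.π p) * h.g a' p * R)
    {c : Fin q → ℂ} (hc : ∀ j, c j ≠ 0)
    (hχ : ∀ (d : ℕ → ℕ) (f : MvPolynomial (Fin q × Fin q) ℂ), IsSemiInvariant b d f →
      ∀ g, ev (g * R) f = (∏ j, c j ^ d (b j)) * ev g f)
    (hδ : dlt b R = ∏ j, c j ^ anti b j)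
    {ψ : OpenPartialHomeomorph X (Fin k → ℂ)} (hψ : ψ ∈ atlas (Fin k → ℂ) X) (hpψ : p ∈ ψ.source) :
    res θ F h ψ a p * (∏ t, (e t (h.idx a) (h.idx a') (h.π p) * ∏ j, c j ^ d t (b j))) =
      jac (Y.chart (h.idx a)) (Y.chart (h.idx a')) (h.π p) * (∏ j, c j ^ anti b j) *
        res θ F h ψ a' p := by
  obtain ⟨u, hu⟩ := exists_u hci hp'
  set E : (Fin r → ℂ) →ₗ[ℂ] (Fin r → ℂ) := LinearMap.pi fun t =>
    (e t (h.idx a) (h.idx a') (h.π p) * ∏ j, c j ^ d t (b j)) • LinearMap.proj t with hE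
  have hEdet : LinearMap.det E =
      ∏ t, (e t (h.idx a) (h.idx a') (h.π p) * ∏ j, c j ^ d t (b j)) :=
    det_diag E _ fun y x => rfl
  have hEne : LinearMap.det E ≠ 0 := by
    rw [hEdet]
    exact Finset.prod_ne_zero_iff.2 fun t _ => mul_ne_zero
      ((hF t).e_ne_zero _ _ _ ⟨h.mem a p hp, h.mem a' p hp'⟩)
      (Finset.prod_ne_zero_iff.2 fun j _ => pow_ne_zero _ (hc j))
  have h1 : df h ψ a p = trh h a a' p R ∘ₗ df h ψ a' p := by
    refine LinearMap.ext fun w => ?_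
    exact diff_change hp hp' hR hgr hψ hpψ w
  have h2 : lam h F a p ∘ₗ trh h a a' p R = E ∘ₗ lam h F a' p := by
    refine LinearMap.ext fun c' => funext fun t => ?_
    exact normal_change hp hp' hR hgr hb (hF t) (hci.zero t a p hp) (hci.zero t a' p hp')
      (fun f hf g => hχ (d t) f hf g) c'
  have h3 : lam h F a p ∘ₗ (trh h a a' p R ∘ₗ u) = E ∘ₗ (lam h F a' p ∘ₗ u) := by
    rw [← LinearMap.comp_assoc, h2, LinearMap.comp_assoc]
  have h4 : LinearMap.det (lam h F a p ∘ₗ (trh h a a' p R ∘ₗ u)) ≠ 0 := by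
    rw [h3, LinearMap.det_comp]
    exact mul_ne_zero hEne hu
  rw [res_eq θ hb hF hci hp hψ hpψ h4, res_eq θ hb hF hci hp' hψ hpψ hu, h3, LinearMap.det_comp, h1,
    Dt_comp_left, ← hEdet]
  have h5 : LinearMap.det (trh h a a' p R) =
      jac (Y.chart (h.idx a)) (Y.chart (h.idx a')) (h.π p) * (∏ j, c j ^ anti b j) := by
    rw [trh, det_tr, hδ]
    · rfl
    · rw [hδ]
      exact Finset.prod_ne_zero_iff.2 fun j _ => zpow_ne_zero _ (hc j)
  rw [h5]
  field_simp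

/-- The residue is holomorphic. -/
theorem contMDiffAt_res {a : κ} {p : X} (hp : p ∈ h.W a)
    {ψ : OpenPartialHomeomorph X (Fin k → ℂ)} (hψ : ψ ∈ atlas (Fin k → ℂ) X) (hpψ : p ∈ ψ.source) :
    ContMDiffAt 𝓘(ℂ, Fin k → ℂ) 𝓘(ℂ) ω (res θ F h ψ a) p := by
  apply contMDiffAt_of_chart hψ hpψ
  obtain ⟨u, hu⟩ := exists_u hci hp
  have hleft : ψ.symm (ψ p) = p := ψ.left_inv hpψ
  have hbase := contDiffAt_base hp hψ hpψ
  have hlift := contDiffAt_lift hp hψ hpψ
  have hmem := (eventually_mem hpψ (h.isOpen a) hp).and (eventually_mem hpψ ψ.open_source hpψ)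
  have htar : ∀ᶠ z in 𝓝 (ψ p), z ∈ ψ.target := ψ.open_target.mem_nhds (ψ.map_source hpψ)
  -- the differential
  have hdf : ∀ w, ContDiffAt ℂ ω (fun z => df h ψ a (ψ.symm z) w) (ψ p) := by
    intro w
    have h1 : (fun z => df h ψ a (ψ.symm z) w) =ᶠ[𝓝 (ψ p)] fun z =>
        (fderiv ℂ (fun z => Y.chart (h.idx a) (h.π (ψ.symm z))) z w,
          lowL b ((h.g a (ψ.symm z))⁻¹ * fderiv ℂ (fun z => h.g a (ψ.symm z)) z w)) := by
      filter_upwards [hmem, htar] with z hz hz'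
      rw [df_apply, diff_apply hz.1 hψ hz.2, ψ.right_inv hz']
      rfl
    refine ContDiffAt.congr_of_eventuallyEq ?_ h1
    have h2 : ContDiffAt ℂ ω (fderiv ℂ (fun z => Y.chart (h.idx a) (h.π (ψ.symm z)))) (ψ p) :=
      hbase.fderiv_right (m := ω) (by simp)
    have h3 := hlift.fderiv_right (m := ω) (by simp)
    have h4 : ContDiffAt ℂ ω (fun z => (h.g a (ψ.symm z))⁻¹) (ψ p) := by
      apply contDiffAt_inv hlift
      rw [hleft]
      exact h.det_ne_zero a p hp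
    exact (h2.clm_apply contDiffAt_const).prodMk
      ((lowL b).contDiff.contDiffAt.comp _ (h4.mul (h3.clm_apply contDiffAt_const)))
  -- the normal directions
  have hlam : ∀ c : TS n b, ContDiffAt ℂ ω (fun z => lam h F a (ψ.symm z) c) (ψ p) := by
    intro c
    rw [contDiffAt_pi]
    intro t
    have hU := h.mem a p hp
    have h1 : (fun z => lam h F a (ψ.symm z) c t) =ᶠ[𝓝 (ψ p)] fun z =>
        fderiv ℂ (fun c : (Fin n → ℂ) × Matrix (Fin q) (Fin q) ℂ =>
          ev c.2 (F t (h.idx a) ((Y.chart (h.idx a)).symm c.1)))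
          (Y.chart (h.idx a) (h.π (ψ.symm z)), h.g a (ψ.symm z))
          (c.1, h.g a (ψ.symm z) * emb b c.2) := by
      filter_upwards [hmem] with z hz
      rw [lam_apply]
      exact normal_apply (hF t) hz.1 c.1 c.2
    refine ContDiffAt.congr_of_eventuallyEq ?_ h1
    have h2 := (contDiffAt_Xi (hF t).holo (hF t).semi hU (h.g a p)).fderiv_right (m := ω) (by simp)
    have h3 := ContDiffAt.comp (ψ p) (f := fun z =>
      (Y.chart (h.idx a) (h.π (ψ.symm z)), h.g a (ψ.symm z))) (by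
        try simp only
        rw [hleft]
        exact h2) (hbase.prodMk hlift)
    exact h3.clm_apply (contDiffAt_const.prodMk (hlift.mul contDiffAt_const))
  have hdet1 : ContDiffAt ℂ ω (fun z => LinearMap.det (lam h F a (ψ.symm z) ∘ₗ u)) (ψ p) :=
    contDiffAt_det fun v => hlam (u v)
  have hne : ∀ᶠ z in 𝓝 (ψ p), LinearMap.det (lam h F a (ψ.symm z) ∘ₗ u) ≠ 0 := by
    apply hdet1.continuousAt.eventually_ne
    rw [hleft]
    exact hu
  have hdet2 : ContDiffAt ℂ ω (fun z => Dt θ (df h ψ a (ψ.symm z)) u) (ψ p) := by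
    apply contDiffAt_det
    intro v
    have h1 : (fun z => ((df h ψ a (ψ.symm z)).coprod u ∘ₗ (θ : TS n b →ₗ[ℂ] _)) v) =
        fun z => df h ψ a (ψ.symm z) (θ v).1 + u (θ v).2 := rfl
    rw [h1]
    exact (hdf _).add contDiffAt_const
  have h1 : (fun z => res θ F h ψ a (ψ.symm z)) =ᶠ[𝓝 (ψ p)] fun z =>
      Dt θ (df h ψ a (ψ.symm z)) u / LinearMap.det (lam h F a (ψ.symm z) ∘ₗ u) := by
    filter_upwards [hmem, hne] with z hz hz'
    exact res_eq θ hb hF hci hz.1 hψ hz.2 hz'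
  refine ContDiffAt.congr_of_eventuallyEq ?_ h1
  refine hdet2.div hdet1 ?_
  rw [hleft]
  exact hu

end

/-- The form on `X` which is the residue of the form given by `G`. -/
noncomputable def form (F : Fin r → ι → B → MvPolynomial (Fin q × Fin q) ℂ)
    (h : FlagMap Y b k X κ) (N : ℕ) (G : ι → B → MvPolynomial (Fin q × Fin q) ℂ) (a : κ)
    (ψ : OpenPartialHomeomorph X (Fin k → ℂ)) (φ : OpenPartialHomeomorph B (Fin n → ℂ)) (p : X) : ℂ :=
  ev (h.g a p) (G (h.idx a) (h.π p)) * res θ F h ψ a p ^ N *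
    jac φ (Y.chart (h.idx a)) (h.π p) ^ N

section

variable (hb : Monotone b) {d : Fin r → ℕ → ℕ} {e : Fin r → ι → ι → B → ℂ}
  (hF : ∀ t, Y.IsDivisor b (d t) (F t) (e t)) (hci : h.IsCompleteIntersection F) {N : ℕ}
  {G : ι → B → MvPolynomial (Fin q × Fin q) ℂ}
  (hG : Y.IsRelativeSection b 1 (fun j => ∑ t, d t j) (fun i j p => ∏ t, e t i j p) N G)

include hb hF hci hG

/-- The form does not depend on the lift. -/
theorem form_change {a a' : κ} {p : X} (hp : p ∈ h.W a) (hp' : p ∈ h.W a')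
    {ψ : OpenPartialHomeomorph X (Fin k → ℂ)} (hψ : ψ ∈ atlas (Fin k → ℂ) X) (hpψ : p ∈ ψ.source)
    {φ : OpenPartialHomeomorph B (Fin n → ℂ)} (hφ : φ ∈ atlas (Fin n → ℂ) B)
    (hpφ : h.π p ∈ φ.source) : form θ F h N G a ψ φ p = form θ F h N G a' ψ φ p := by
  obtain ⟨R, hR, hgr⟩ := h.compat a a' p ⟨hp, hp'⟩
  have hdet := det_r_ne_zero hp hp' hgr
  obtain ⟨_, _, c, hc, hχ, hδ⟩ := good_of_bt hb hdet hR
  have hU := h.mem a p hp
  have hU' := h.mem a' p hp'
  have h1 := res_change θ hb hF hci hp hp' hR hgr hc hχ hδ hψ hpψ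
  obtain ⟨d', hd', hsemi⟩ := hG.semi
  have h2 : ev (h.g a p) (G (h.idx a) (h.π p)) = (∏ j, c j ^ d' (b j)) *
      ((∏ t, e t (h.idx a) (h.idx a') (h.π p)) ^ N * ev (h.g a' p) (G (h.idx a') (h.π p))) := by
    rw [hgr, hχ d' _ (hsemi _ _ hU), hG.eq _ _ _ ⟨hU, hU'⟩]
  have h3 := jac_mul hφ (Y.mem_atlas (h.idx a)) (Y.mem_atlas (h.idx a')) hpφ hU hU'
  -- the characters
  have h4 : (∏ j, c j ^ d' (b j)) * (∏ j, c j ^ anti b j) ^ N = (∏ t, ∏ j, c j ^ d t (b j)) ^ N := by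
    have h5 : ∀ j, c j ^ d' (b j) * (c j ^ anti b j) ^ N = (∏ t, c j ^ d t (b j)) ^ N := by
      intro j
      rw [Finset.prod_pow_eq_pow_sum, ← zpow_natCast (c j) (d' (b j)), hd' j,
        ← zpow_natCast (c j ^ anti b j) N, ← zpow_mul, ← zpow_add₀ (hc j), ← pow_mul,
        ← zpow_natCast (c j)]
      congr 1
      push_cast
      ring
    rw [← Finset.prod_pow, ← Finset.prod_mul_distrib, Finset.prod_comm, ← Finset.prod_pow]
    exact Finset.prod_congr rfl fun j _ => h5 j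
  have h5 : (∏ t, (e t (h.idx a) (h.idx a') (h.π p) * ∏ j, c j ^ d t (b j))) ≠ 0 :=
    Finset.prod_ne_zero_iff.2 fun t _ => mul_ne_zero
      ((hF t).e_ne_zero _ _ _ ⟨hU, hU'⟩)
      (Finset.prod_ne_zero_iff.2 fun j _ => pow_ne_zero _ (hc j))
  have h6 : res θ F h ψ a p ^ N * (∏ t, (e t (h.idx a) (h.idx a') (h.π p) *
      ∏ j, c j ^ d t (b j))) ^ N =
      jac (Y.chart (h.idx a)) (Y.chart (h.idx a')) (h.π p) ^ N * (∏ j, c j ^ anti b j) ^ N *
        res θ F h ψ a' p ^ N := by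
    rw [← mul_pow, h1, mul_pow, mul_pow]
  apply mul_right_cancel₀ (pow_ne_zero N h5)
  rw [form, form, h2, ← h3]
  calc (∏ j, c j ^ d' (b j)) * ((∏ t, e t (h.idx a) (h.idx a') (h.π p)) ^ N *
        ev (h.g a' p) (G (h.idx a') (h.π p))) * res θ F h ψ a p ^ N *
        jac φ (Y.chart (h.idx a)) (h.π p) ^ N *
        (∏ t, (e t (h.idx a) (h.idx a') (h.π p) * ∏ j, c j ^ d t (b j))) ^ N
      = (∏ j, c j ^ d' (b j)) * ((∏ t, e t (h.idx a) (h.idx a') (h.π p)) ^ N *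
        ev (h.g a' p) (G (h.idx a') (h.π p))) *
        jac φ (Y.chart (h.idx a)) (h.π p) ^ N *
        (res θ F h ψ a p ^ N *
          (∏ t, (e t (h.idx a) (h.idx a') (h.π p) * ∏ j, c j ^ d t (b j))) ^ N) := by ring
    _ = ((∏ j, c j ^ d' (b j)) * (∏ j, c j ^ anti b j) ^ N) *
        (∏ t, e t (h.idx a) (h.idx a') (h.π p)) ^ N *
        ev (h.g a' p) (G (h.idx a') (h.π p)) * jac φ (Y.chart (h.idx a)) (h.π p) ^ N *
        jac (Y.chart (h.idx a)) (Y.chart (h.idx a')) (h.π p) ^ N * res θ F h ψ a' p ^ N := by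
          rw [h6]; ring
    _ = _ := by
          rw [h4, Finset.prod_mul_distrib]
          ring

/-- The form is holomorphic. -/
theorem contMDiffAt_form {a : κ} {p : X} (hp : p ∈ h.W a)
    {ψ : OpenPartialHomeomorph X (Fin k → ℂ)} (hψ : ψ ∈ atlas (Fin k → ℂ) X) (hpψ : p ∈ ψ.source)
    {φ : OpenPartialHomeomorph B (Fin n → ℂ)} (hφ : φ ∈ atlas (Fin n → ℂ) B)
    (hpφ : h.π p ∈ φ.source) :
    ContMDiffAt 𝓘(ℂ, Fin k → ℂ) 𝓘(ℂ) ω (form θ F h N G a ψ φ) p := by
  have hU := h.mem a p hp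
  obtain ⟨d', hd', hsemi⟩ := hG.semi
  have h1 : ContMDiffAt 𝓘(ℂ, Fin k → ℂ) 𝓘(ℂ) ω
      (fun p => ev (h.g a p) (G (h.idx a) (h.π p))) p := by
    apply contMDiffAt_of_chart hψ hpψ
    have hleft : ψ.symm (ψ p) = p := ψ.left_inv hpψ
    have h2 : ContDiffAt ℂ ω (fun c : (Fin n → ℂ) × Matrix (Fin q) (Fin q) ℂ =>
          ev c.2 (G (h.idx a) ((Y.chart (h.idx a)).symm c.1)))
          (Y.chart (h.idx a) (h.π (ψ.symm (ψ p))), h.g a (ψ.symm (ψ p))) := by
      rw [hleft]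
      exact contDiffAt_Xi hG.holo hsemi hU _
    have h3 := ContDiffAt.comp (ψ p) (f := fun z =>
      (Y.chart (h.idx a) (h.π (ψ.symm z)), h.g a (ψ.symm z))) h2
      ((contDiffAt_base hp hψ hpψ).prodMk (contDiffAt_lift hp hψ hpψ))
    refine h3.congr_of_eventuallyEq ?_
    filter_upwards [eventually_mem hpψ (h.isOpen a) hp] with z hz
    simp only [Function.comp_apply]
    rw [(Y.chart (h.idx a)).left_inv (h.mem a _ hz)]
  have h2 := contMDiffAt_res θ hb hF hci hp hψ hpψ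
  have h3 : ContMDiffAt 𝓘(ℂ, Fin k → ℂ) 𝓘(ℂ) ω
      (fun p => jac φ (Y.chart (h.idx a)) (h.π p)) p :=
    (contMDiffAt_jac hφ (Y.mem_atlas _) hpφ hU).comp p (h.holo_π p)
  exact (h1.mul (h2.pow N)).mul (h3.pow N)

end

end H18.Adj
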