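import Pool.Agent.H18.Adj.Defs
import Pool.Agent.H18.Adj.Deriv
import Pool.Agent.H18.GIT.Global

/-!
# Holomorphic functions in coordinates
-/

set_option autoImplicit false
set_option linter.unusedSectionVars false

namespace H18.Adj

open MvPolynomial Q47.FL H18.GIT Filter
open scoped Manifold ContDiff Topology

universe u v w x

section manifold

variable {n : ℕ} {B : Type u} [TopologicalSpace B] [ChartedSpace (Fin n → ℂ) B]
  [IsManifold 𝓘(ℂ, Fin n → ℂ) ω B]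

theorem contDiffAt_chart {E : Type*} [NormedAddCommGroup E] [NormedSpace ℂ E] {f : B → E} {p : B}
    (hf : ContMDiffAt 𝓘(ℂ, Fin n → ℂ) 𝓘(ℂ, E) ω f p) {φ : OpenPartialHomeomorph B (Fin n → ℂ)}
    (hφ : φ ∈ atlas (Fin n → ℂ) B) (hp : p ∈ φ.source) :
    ContDiffAt ℂ ω (fun z => f (φ.symm z)) (φ p) := by
  rw [← contMDiffAt_iff_contDiffAt]
  have h1 : ContMDiffAt 𝓘(ℂ, Fin n → ℂ) 𝓘(ℂ, Fin n → ℂ) ω φ.symm (φ p) :=
    contMDiffAt_symm_of_mem_maximalAtlas (IsManifold.subset_maximalAtlas hφ) (φ.map_source hp)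
  have h2 : ContMDiffAt 𝓘(ℂ, Fin n → ℂ) 𝓘(ℂ, E) ω f (φ.symm (φ p)) := by
    rw [φ.left_inv hp]
    exact hf
  exact h2.comp (φ p) h1

theorem contMDiffAt_of_chart {E : Type*} [NormedAddCommGroup E] [NormedSpace ℂ E] {f : B → E}
    {p : B} {φ : OpenPartialHomeomorph B (Fin n → ℂ)} (hφ : φ ∈ atlas (Fin n → ℂ) B)
    (hp : p ∈ φ.source) (hf : ContDiffAt ℂ ω (fun z => f (φ.symm z)) (φ p)) :
    ContMDiffAt 𝓘(ℂ, Fin n → ℂ) 𝓘(ℂ, E) ω f p := by
  have h1 : ContMDiffAt 𝓘(ℂ, Fin n → ℂ) 𝓘(ℂ, Fin n → ℂ) ω φ p :=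
    contMDiffAt_of_mem_maximalAtlas (IsManifold.subset_maximalAtlas hφ) hp
  have h2 : ContMDiffAt 𝓘(ℂ, Fin n → ℂ) 𝓘(ℂ, E) ω (fun z => f (φ.symm z)) (φ p) :=
    contMDiffAt_iff_contDiffAt.2 hf
  have h3 := h2.comp p h1
  refine h3.congr_of_eventuallyEq ?_
  filter_upwards [φ.open_source.mem_nhds hp] with x hx
  simp only [Function.comp_apply]
  rw [φ.left_inv hx]

theorem contDiffAt_trans {φ ψ : OpenPartialHomeomorph B (Fin n → ℂ)}
    (hφ : φ ∈ atlas (Fin n → ℂ) B) (hψ : ψ ∈ atlas (Fin n → ℂ) B) {p : B}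
    (hp : p ∈ φ.source ∩ ψ.source) : ContDiffAt ℂ ω (fun z => φ (ψ.symm z)) (ψ p) :=
  contDiffAt_chart (contMDiffAt_of_mem_maximalAtlas (IsManifold.subset_maximalAtlas hφ) hp.1) hψ hp.2

theorem jac_mul {φ ψ χ : OpenPartialHomeomorph B (Fin n → ℂ)}
    (hφ : φ ∈ atlas (Fin n → ℂ) B) (hψ : ψ ∈ atlas (Fin n → ℂ) B) (hχ : χ ∈ atlas (Fin n → ℂ) B)
    {p : B} (hp : p ∈ φ.source) (hp' : p ∈ ψ.source) (hp'' : p ∈ χ.source) :
    jac φ ψ p * jac ψ χ p = jac φ χ p := by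
  have h1 : HasFDerivAt (φ ∘ ψ.symm) (fderiv ℂ (φ ∘ ψ.symm) (ψ p)) (ψ p) :=
    ((contDiffAt_trans hφ hψ ⟨hp, hp'⟩).differentiableAt (by simp)).hasFDerivAt
  have h2 : HasFDerivAt (ψ ∘ χ.symm) (fderiv ℂ (ψ ∘ χ.symm) (χ p)) (χ p) :=
    ((contDiffAt_trans hψ hχ ⟨hp', hp''⟩).differentiableAt (by simp)).hasFDerivAt
  have h3 : HasFDerivAt (φ ∘ ψ.symm) (fderiv ℂ (φ ∘ ψ.symm) (ψ p)) ((ψ ∘ χ.symm) (χ p)) := by
    simp only [Function.comp_apply]
    rw [χ.left_inv hp'']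
    exact h1
  have h4 := h3.comp (χ p) h2
  have h5 : (φ ∘ χ.symm) =ᶠ[𝓝 (χ p)] (φ ∘ ψ.symm) ∘ (ψ ∘ χ.symm) := by
    have h6 : ContinuousAt χ.symm (χ p) := χ.continuousAt_symm (χ.map_source hp'')
    have h7 : ∀ᶠ z in 𝓝 (χ p), χ.symm z ∈ ψ.source := by
      apply h6
      rw [χ.left_inv hp'']
      exact ψ.open_source.mem_nhds hp'
    filter_upwards [h7] with z hz
    simp only [Function.comp_apply]
    rw [ψ.left_inv hz]
  have h6 := h4.congr_of_eventuallyEq h5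
  rw [jac, jac, jac, h6.fderiv, ← LinearMap.det_comp]
  rfl

theorem jac_self {φ : OpenPartialHomeomorph B (Fin n → ℂ)} {p : B} (hp : p ∈ φ.source) :
    jac φ φ p = 1 := by
  have h1 : (φ ∘ φ.symm) =ᶠ[𝓝 (φ p)] id := by
    filter_upwards [φ.open_target.mem_nhds (φ.map_source hp)] with z hz
    exact φ.right_inv hz
  rw [jac, h1.fderiv_eq, fderiv_id]
  exact LinearMap.det_id

theorem jac_ne_zero {φ ψ : OpenPartialHomeomorph B (Fin n → ℂ)}
    (hφ : φ ∈ atlas (Fin n → ℂ) B) (hψ : ψ ∈ atlas (Fin n → ℂ) B)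
    {p : B} (hp : p ∈ φ.source) (hp' : p ∈ ψ.source) : jac φ ψ p ≠ 0 := by
  intro h
  have h1 := jac_mul hφ hψ hφ hp hp' hp
  rw [h, zero_mul, jac_self hp] at h1
  exact zero_ne_one h1

/-- The determinant of a holomorphic family of linear maps. -/
theorem contDiffAt_det {V : Type*} [NormedAddCommGroup V] [NormedSpace ℂ V] [FiniteDimensional ℂ V]
    {E : Type*} [NormedAddCommGroup E] [NormedSpace ℂ E] {L : E → V →ₗ[ℂ] V} {z : E}
    (h : ∀ v, ContDiffAt ℂ ω (fun z => L z v) z) :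
    ContDiffAt ℂ ω (fun z => LinearMap.det (L z)) z := by
  set bs := Module.finBasis ℂ V with hbs
  have h1 : (fun z => LinearMap.det (L z)) = fun z => ∑ σ : Equiv.Perm (Fin (Module.finrank ℂ V)),
      Equiv.Perm.sign σ • ∏ i, (bs.coord (σ i)) (L z (bs i)) := by
    funext z
    rw [← LinearMap.det_toMatrix bs, Matrix.det_apply]
    simp only [LinearMap.toMatrix_apply, Module.Basis.coord_apply]
  rw [h1]
  apply ContDiffAt.sum
  intro σ _
  have h2 : ContDiffAt ℂ ω (fun z => ∏ i, (bs.coord (σ i)) (L z (bs i))) z := by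
    apply contDiffAt_prod
    intro i _
    exact (LinearMap.toContinuousLinearMap (bs.coord (σ i))).contDiff.contDiffAt.comp z (h (bs i))
  have h3 := h2.const_smul ((Equiv.Perm.sign σ : ℤ) : ℂ)
  refine h3.congr_of_eventuallyEq (Eventually.of_forall fun y => ?_)
  simp only [Units.smul_def, zsmul_eq_mul, smul_eq_mul]

theorem contMDiffAt_jac {φ ψ : OpenPartialHomeomorph B (Fin n → ℂ)}
    (hφ : φ ∈ atlas (Fin n → ℂ) B) (hψ : ψ ∈ atlas (Fin n → ℂ) B)
    {p : B} (hp : p ∈ φ.source) (hp' : p ∈ ψ.source) :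
    ContMDiffAt 𝓘(ℂ, Fin n → ℂ) 𝓘(ℂ) ω (jac φ ψ) p := by
  apply contMDiffAt_of_chart hψ hp'
  have h1 : (fun z => jac φ ψ (ψ.symm z)) =ᶠ[𝓝 (ψ p)] fun z =>
      LinearMap.det (fderiv ℂ (φ ∘ ψ.symm) z : (Fin n → ℂ) →ₗ[ℂ] (Fin n → ℂ)) := by
    filter_upwards [ψ.open_target.mem_nhds (ψ.map_source hp')] with z hz
    rw [jac, ψ.right_inv hz]
  refine ContDiffAt.congr_of_eventuallyEq ?_ h1
  apply contDiffAt_det
  intro v
  have h2 : ContDiffAt ℂ ω (fderiv ℂ (φ ∘ ψ.symm)) (ψ p) :=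
    (contDiffAt_trans hφ hψ ⟨hp, hp'⟩).fderiv_right (m := ω) (by simp)
  exact h2.clm_apply contDiffAt_const

end manifold

attribute [local instance] Matrix.linftyOpNormedRing Matrix.linftyOpNormedAlgebra

section matrix

variable {q : ℕ} {b : Fin q → ℕ}

/-- The matrix with given entries. -/
noncomputable def matL (q : ℕ) : (Fin q → Fin q → ℂ) →L[ℂ] Matrix (Fin q) (Fin q) ℂ :=
  LinearMap.toContinuousLinearMap
    { toFun := fun y => Matrix.of y
      map_add' := fun _ _ => rfl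
      map_smul' := fun _ _ => rfl }

/-- An entry of a matrix. -/
noncomputable def entL (i j : Fin q) : Matrix (Fin q) (Fin q) ℂ →L[ℂ] ℂ :=
  LinearMap.toContinuousLinearMap
    { toFun := fun y => y i j
      map_add' := fun _ _ => rfl
      map_smul' := fun _ _ => rfl }

theorem contDiffAt_matrix {E : Type*} [NormedAddCommGroup E] [NormedSpace ℂ E]
    {g : E → Matrix (Fin q) (Fin q) ℂ} {z : E} (h : ∀ i j, ContDiffAt ℂ ω (fun z => g z i j) z) :
    ContDiffAt ℂ ω g z := by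
  have h1 : ContDiffAt ℂ ω (fun z => fun i j => g z i j : E → Fin q → Fin q → ℂ) z :=
    contDiffAt_pi.2 fun i => contDiffAt_pi.2 fun j => h i j
  exact (matL q).contDiff.contDiffAt.comp z h1

theorem contDiffAt_entry {E : Type*} [NormedAddCommGroup E] [NormedSpace ℂ E]
    {g : E → Matrix (Fin q) (Fin q) ℂ} {z : E} (h : ContDiffAt ℂ ω g z) (i j : Fin q) :
    ContDiffAt ℂ ω (fun z => g z i j) z := (entL i j).contDiff.contDiffAt.comp z h

theorem contDiffAt_inv {E : Type*} [NormedAddCommGroup E] [NormedSpace ℂ E]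
    {g : E → Matrix (Fin q) (Fin q) ℂ} {z : E} (h : ContDiffAt ℂ ω g z) (hdet : (g z).det ≠ 0) :
    ContDiffAt ℂ ω (fun z => (g z)⁻¹) z := by
  have hu : IsUnit (g z) := (Matrix.isUnit_iff_isUnit_det _).2 (isUnit_iff_ne_zero.2 hdet)
  have h1 : ContDiffAt ℂ ω (Ring.inverse : Matrix (Fin q) (Fin q) ℂ → _) (g z) := by
    obtain ⟨u, hu⟩ := hu
    rw [← hu]
    exact contDiffAt_ringInverse ℂ u
  have h2 := h1.comp z h
  refine h2.congr_of_eventuallyEq (Eventually.of_forall fun y => ?_)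
  simp only [Function.comp_apply]
  rw [Matrix.nonsing_inv_eq_ringInverse]

/-- The value of a family of forms. -/
theorem contDiffAt_ev {T E : Type*} [NormedAddCommGroup T] [NormedSpace ℂ T] [NormedAddCommGroup E]
    [NormedSpace ℂ E] {P : T → MvPolynomial (Fin q × Fin q) ℂ} {D : ℕ} {z : T}
    (hP : ∀ α, ContDiffAt ℂ ω (fun z => coeff α (P z)) z)
    (hD : ∀ᶠ z' in 𝓝 z, (P z').IsHomogeneous D) (g : Matrix (Fin q) (Fin q) ℂ) :
    ContDiffAt ℂ ω (fun c : T × Matrix (Fin q) (Fin q) ℂ => ev c.2 (P c.1)) (z, g) := by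
  classical
  have hfin : {f : Fin q × Fin q →₀ ℕ | f.degree = D}.Finite := Finsupp.finite_of_degree_eq D
  have h1 : (fun c : T × Matrix (Fin q) (Fin q) ℂ => ev c.2 (P c.1)) =ᶠ[𝓝 (z, g)]
      fun c => ∑ α ∈ hfin.toFinset, coeff α (P c.1) * ∏ x, c.2 x.1 x.2 ^ α x := by
    have h2 : Tendsto Prod.fst (𝓝 (z, g)) (𝓝 z) := continuous_fst.continuousAt
    filter_upwards [h2.eventually hD] with c hc
    rw [ev, eval_eq']
    apply Finset.sum_subset
    · intro α hα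
      rw [Set.Finite.mem_toFinset, Set.mem_ofPred_eq]
      by_contra h3
      exact (mem_support_iff.1 hα) (hc.coeff_eq_zero h3)
    · intro α _ hα
      rw [notMem_support_iff.1 hα, zero_mul]
  refine ContDiffAt.congr_of_eventuallyEq ?_ h1
  apply ContDiffAt.sum
  intro α _
  apply ContDiffAt.mul
  · exact (hP α).comp (z, g) contDiffAt_fst
  · apply contDiffAt_prod
    intro x _
    apply ContDiffAt.pow
    exact contDiffAt_entry contDiffAt_snd x.1 x.2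

end matrix

end H18.Adj
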