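import Pool.Agent.H18.GIT.Uniform2

/-!
# The parabolic group: characters
-/

set_option autoImplicit false
set_option linter.unusedSectionVars false

namespace H18.Adj

open MvPolynomial Q47.FL H18.GIT

variable {q : ℕ} {b : Fin q → ℕ}

/-- The strictly lower block triangular matrix with the given entries. -/
noncomputable def emb (b : Fin q → ℕ) (y : Low b → ℂ) : Matrix (Fin q) (Fin q) ℂ :=
  Matrix.of fun i j => if h : b j < b i then y ⟨(i, j), h⟩ else 0

/-- The strictly lower blocks of a matrix. -/
def low (b : Fin q → ℕ) (X : Matrix (Fin q) (Fin q) ℂ) : Low b → ℂ := fun y => X y.1.1 y.1.2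

theorem low_add (X Y : Matrix (Fin q) (Fin q) ℂ) : low b (X + Y) = low b X + low b Y := rfl

theorem low_smul (c : ℂ) (X : Matrix (Fin q) (Fin q) ℂ) : low b (c • X) = c • low b X := rfl

theorem low_sub (X Y : Matrix (Fin q) (Fin q) ℂ) : low b (X - Y) = low b X - low b Y := rfl

theorem low_eq_zero_iff {X : Matrix (Fin q) (Fin q) ℂ} : low b X = 0 ↔ X.BlockTriangular b := by
  constructor
  · intro h i j hij
    exact congrFun h ⟨(i, j), hij⟩
  · intro h
    funext y
    exact h y.2

theorem low_emb (y : Low b → ℂ) : low b (emb b y) = y := by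
  funext x
  simp only [low, emb, Matrix.of_apply]
  rw [dif_pos x.2]

theorem emb_add (y y' : Low b → ℂ) : emb b (y + y') = emb b y + emb b y' := by
  ext1 i j
  simp only [emb, Matrix.of_apply, Matrix.add_apply]
  split_ifs <;> simp

theorem emb_smul (c : ℂ) (y : Low b → ℂ) : emb b (c • y) = c • emb b y := by
  ext1 i j
  simp only [emb, Matrix.of_apply, Matrix.smul_apply]
  split_ifs <;> simp

theorem bt_sub_emb (X : Matrix (Fin q) (Fin q) ℂ) : (X - emb b (low b X)).BlockTriangular b := by
  rw [← low_eq_zero_iff, low_sub, low_emb, sub_self]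

theorem bt_inv {p : Matrix (Fin q) (Fin q) ℂ} (hp : p.BlockTriangular b) (hd : p.det ≠ 0) :
    (p⁻¹).BlockTriangular b := by
  have := p.invertibleOfIsUnitDet (isUnit_iff_ne_zero.2 hd)
  exact Matrix.blockTriangular_inv_of_blockTriangular hp

/-- Conjugation by an element of the parabolic group does not see the upper part. -/
theorem low_conj {p : Matrix (Fin q) (Fin q) ℂ} (hp : p.BlockTriangular b) (hd : p.det ≠ 0)
    (X : Matrix (Fin q) (Fin q) ℂ) :
    low b (p⁻¹ * X * p) = low b (p⁻¹ * emb b (low b X) * p) := by
  have h1 : (p⁻¹ * (X - emb b (low b X)) * p).BlockTriangular b :=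
    ((bt_inv hp hd).mul (bt_sub_emb X)).mul hp
  have h2 := low_eq_zero_iff.2 h1
  rw [mul_sub, sub_mul, low_sub, sub_eq_zero] at h2
  exact h2

/-- The adjoint action on the tangent space of the flag variety. -/
noncomputable def adj (b : Fin q → ℕ) (p : Matrix (Fin q) (Fin q) ℂ) :
    (Low b → ℂ) →ₗ[ℂ] (Low b → ℂ) where
  toFun y := low b (p⁻¹ * emb b y * p)
  map_add' y y' := by rw [emb_add, mul_add, add_mul, low_add]
  map_smul' c y := by
    rw [emb_smul, Matrix.mul_smul, Matrix.smul_mul, low_smul]
    rfl

theorem adj_apply (p : Matrix (Fin q) (Fin q) ℂ) (y : Low b → ℂ) :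
    adj b p y = low b (p⁻¹ * emb b y * p) := rfl

theorem adj_mul {p p' : Matrix (Fin q) (Fin q) ℂ} (hp' : p'.BlockTriangular b)
    (hd' : p'.det ≠ 0) : adj b (p * p') = adj b p' ∘ₗ adj b p := by
  refine LinearMap.ext fun y => ?_
  rw [LinearMap.comp_apply, adj_apply, adj_apply, adj_apply, ← low_conj hp' hd', Matrix.mul_inv_rev]
  simp only [Matrix.mul_assoc]

theorem adj_one : adj b 1 = LinearMap.id := by
  refine LinearMap.ext fun y => ?_
  rw [adj_apply, inv_one, one_mul, mul_one, low_emb]
  rfl

/-- The character of the determinant of the adjoint action. -/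
noncomputable def dlt (b : Fin q → ℕ) (p : Matrix (Fin q) (Fin q) ℂ) : ℂ := LinearMap.det (adj b p)

theorem dlt_mul {p p' : Matrix (Fin q) (Fin q) ℂ} (hp' : p'.BlockTriangular b)
    (hd' : p'.det ≠ 0) : dlt b (p * p') = dlt b p * dlt b p' := by
  rw [dlt, adj_mul hp' hd', LinearMap.det_comp, mul_comm]
  rfl

theorem dlt_one : dlt b (1 : Matrix (Fin q) (Fin q) ℂ) = 1 := by
  rw [dlt, adj_one, LinearMap.det_id]

/-- The element `p` of the parabolic group acts on the semi-invariant polynomials by a character,
which is compatible with the adjoint action. -/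
def Good (b : Fin q → ℕ) (p : Matrix (Fin q) (Fin q) ℂ) : Prop :=
  p.det ≠ 0 ∧ p.BlockTriangular b ∧ ∃ c : Fin q → ℂ, (∀ j, c j ≠ 0) ∧
    (∀ (d : ℕ → ℕ) (f : MvPolynomial (Fin q × Fin q) ℂ), IsSemiInvariant b d f →
      ∀ g, ev (g * p) f = (∏ j, c j ^ d (b j)) * ev g f) ∧
    dlt b p = ∏ j, c j ^ anti b j

theorem Good.mul {p p' : Matrix (Fin q) (Fin q) ℂ} (hp : Good b p) (hp' : Good b p') :
    Good b (p * p') := by
  obtain ⟨h1, h2, c, h3, h4, h5⟩ := hp
  obtain ⟨h1', h2', c', h3', h4', h5'⟩ := hp'
  refine ⟨?_, h2.mul h2', fun j => c j * c' j, fun j => mul_ne_zero (h3 j) (h3' j),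
    fun d f hf g => ?_, ?_⟩
  · rw [Matrix.det_mul]
    exact mul_ne_zero h1 h1'
  · rw [← Matrix.mul_assoc, h4' d f hf, h4 d f hf]
    simp only [mul_pow, Finset.prod_mul_distrib]
    ring
  · rw [dlt_mul h2' h1', h5, h5']
    simp only [mul_zpow, Finset.prod_mul_distrib]

theorem eval_monomials {t : Fin q → ℂ} {d : ℕ → ℕ} {f : MvPolynomial (Fin q × Fin q) ℂ}
    (hf : IsSemiInvariant b d f) (g : Matrix (Fin q) (Fin q) ℂ) :
    ev (g * Matrix.diagonal t) f = (∏ j, t j ^ d (b j)) * ev g f := by
  rw [ev, ev, eval_eq', eval_eq', Finset.mul_sum]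
  apply Finset.sum_congr rfl
  intro α hα
  have h1 : ∏ x : Fin q × Fin q, (g * Matrix.diagonal t) x.1 x.2 ^ α x =
      (∏ x : Fin q × Fin q, g x.1 x.2 ^ α x) * ∏ x : Fin q × Fin q, t x.2 ^ α x := by
    rw [← Finset.prod_mul_distrib]
    apply Finset.prod_congr rfl
    intro x _
    rw [Matrix.mul_diagonal, mul_pow]
  have h2 : ∏ x : Fin q × Fin q, t x.2 ^ α x = ∏ j, t j ^ d (b j) := by
    rw [Fintype.prod_prod_type_right]
    apply Finset.prod_congr rfl
    intro j _
    rw [← Q47.FL.col_of_semi hf hα j]
    exact Finset.prod_pow_eq_pow_sum Finset.univ (fun i => α (i, j)) (t j)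
  rw [h1, h2]
  ring

/-- The determinant of a diagonal map. -/
theorem det_diag {κ : Type*} [Fintype κ] [DecidableEq κ] (L : (κ → ℂ) →ₗ[ℂ] (κ → ℂ)) (t : κ → ℂ)
    (h : ∀ y x, L y x = t x * y x) : LinearMap.det L = ∏ x, t x := by
  have h1 : L = Matrix.toLin' (Matrix.diagonal t) := by
    refine LinearMap.ext fun y => funext fun x => ?_
    rw [h, Matrix.toLin'_apply, Matrix.mulVec_diagonal]
  rw [h1, LinearMap.det_toLin', Matrix.det_diagonal]

theorem prod_low {κ : Type*} [CommMonoid κ] (b : Fin q → ℕ) (φ : Fin q → Fin q → κ) :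
    ∏ x : Low b, φ x.1.1 x.1.2 = ∏ j, ∏ i ∈ Finset.univ.filter (fun i => b j < b i), φ i j := by
  classical
  rw [← Finset.prod_subtype (Finset.univ.filter fun x : Fin q × Fin q => b x.2 < b x.1)
    (fun x => by simp) (fun x : Fin q × Fin q => φ x.1 x.2), Finset.prod_filter,
    Fintype.prod_prod_type_right]
  apply Finset.prod_congr rfl
  intro j _
  rw [Finset.prod_filter]

theorem prod_low' {κ : Type*} [CommMonoid κ] (b : Fin q → ℕ) (φ : Fin q → Fin q → κ) :
    ∏ x : Low b, φ x.1.1 x.1.2 = ∏ i, ∏ j ∈ Finset.univ.filter (fun j => b j < b i), φ i j := by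
  classical
  rw [← Finset.prod_subtype (Finset.univ.filter fun x : Fin q × Fin q => b x.2 < b x.1)
    (fun x => by simp) (fun x : Fin q × Fin q => φ x.1 x.2), Finset.prod_filter,
    Fintype.prod_prod_type]
  apply Finset.prod_congr rfl
  intro j _
  rw [Finset.prod_filter]

theorem good_diagonal {t : Fin q → ℂ} (ht : ∀ j, t j ≠ 0) : Good b (Matrix.diagonal t) := by
  have hdet : (Matrix.diagonal t).det ≠ 0 := by
    rw [Matrix.det_diagonal]
    exact Finset.prod_ne_zero_iff.2 fun j _ => ht j
  refine ⟨hdet, Matrix.blockTriangular_diagonal t, t, ht, fun d f hf g => eval_monomials hf g, ?_⟩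
  have h1 : ∀ (y : Low b → ℂ) (x : Low b),
      adj b (Matrix.diagonal t) y x = (t x.1.2 / t x.1.1) * y x := by
    intro y x
    have h2 : (Matrix.diagonal t)⁻¹ = Matrix.diagonal fun j => (t j)⁻¹ := by
      rw [Matrix.inv_eq_right_inv]
      rw [Matrix.diagonal_mul_diagonal]
      rw [← Matrix.diagonal_one]
      congr 1
      funext j
      exact mul_inv_cancel₀ (ht j)
    rw [adj_apply, h2]
    simp only [low]
    rw [Matrix.mul_diagonal, Matrix.diagonal_mul]
    simp only [emb, Matrix.of_apply]
    rw [dif_pos x.2]
    have h3 := ht x.1.1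
    field_simp
  rw [dlt, det_diag _ _ h1, Finset.prod_div_distrib, prod_low (φ := fun _ j => t j),
    prod_low' (φ := fun i _ => t i), ← Finset.prod_div_distrib]
  apply Finset.prod_congr rfl
  intro j _
  rw [Finset.prod_const, Finset.prod_const, anti, zpow_sub₀ (ht j), zpow_natCast, zpow_natCast]

theorem good_one : Good b (1 : Matrix (Fin q) (Fin q) ℂ) := by
  rw [← Matrix.diagonal_one]
  exact good_diagonal fun _ => one_ne_zero

theorem mul_transvection (g : Matrix (Fin q) (Fin q) ℂ) (i j : Fin q) (c : ℂ) :
    g * Matrix.transvection i j c = g.updateCol j fun k => g k j + c * g k i := by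
  ext1 k l
  rw [Matrix.transvection, Matrix.mul_add, Matrix.mul_one, Matrix.add_apply, Matrix.updateCol_apply]
  split_ifs with h
  · subst h
    rw [Matrix.mul_single_apply_same, mul_comm]
  · rw [Matrix.mul_single_apply_of_ne _ _ _ _ _ h, add_zero]

theorem dlt_transvection {i j : Fin q} (hij : i ≠ j) (hb : b i ≤ b j) (c : ℂ) :
    dlt b (Matrix.transvection i j c) = 1 := by
  set D : Matrix (Fin q) (Fin q) ℂ := Matrix.diagonal (Function.update 1 i 2) with hD
  have hDg : Good b D := good_diagonal fun k => by
    rcases eq_or_ne k i with h | h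
    · subst h
      simp
    · rw [Function.update_of_ne h]
      exact one_ne_zero
  have hT : ∀ a : ℂ, (Matrix.transvection i j a : Matrix (Fin q) (Fin q) ℂ).BlockTriangular b :=
    fun a => Matrix.blockTriangular_transvection hb a
  have hTd : ∀ a : ℂ, (Matrix.transvection i j a : Matrix (Fin q) (Fin q) ℂ).det ≠ 0 := fun a => by
    rw [Matrix.det_transvection_of_ne _ _ hij]
    exact one_ne_zero
  have h1 : D * Matrix.transvection i j c = Matrix.transvection i j (2 * c) * D := by
    ext1 k l
    rw [hD, Matrix.diagonal_mul, Matrix.mul_diagonal, Matrix.transvection, Matrix.transvection,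
      Matrix.add_apply, Matrix.add_apply, Matrix.one_apply, Matrix.single_apply, Matrix.single_apply]
    by_cases hk : k = i
    · subst hk
      by_cases hl : l = k
      · subst hl
        simp [hij.symm]
      · by_cases hl' : l = j
        · subst hl'
          simp [hij, hij.symm]
        · simp [Ne.symm hl, Ne.symm hl']
    · by_cases hl : l = k
      · subst hl
        simp [Ne.symm hk]
      · simp [Ne.symm hl, Ne.symm hk]
  have h2 : dlt b (Matrix.transvection i j (2 * c)) = dlt b (Matrix.transvection i j c) := by
    have h3 := congrArg (dlt b) h1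
    rw [dlt_mul (hT c) (hTd c), dlt_mul hDg.2.1 hDg.1, mul_comm] at h3
    have h4 : dlt b D ≠ 0 := by
      obtain ⟨_, _, c', h3, _, h5⟩ := hDg
      rw [h5]
      exact Finset.prod_ne_zero_iff.2 fun j _ => zpow_ne_zero _ (h3 j)
    exact (mul_right_cancel₀ h4 h3).symm
  have h3 : dlt b (Matrix.transvection i j (2 * c)) =
      dlt b (Matrix.transvection i j c) * dlt b (Matrix.transvection i j c) := by
    rw [← dlt_mul (hT c) (hTd c), Matrix.transvection_mul_transvection_same _ _ hij, two_mul]
  have h4 : dlt b (Matrix.transvection i j c) ≠ 0 := by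
    intro h0
    have h5 : dlt b (Matrix.transvection i j c) * dlt b (Matrix.transvection i j (-c)) = 1 := by
      rw [← dlt_mul (hT _) (hTd _), Matrix.transvection_mul_transvection_same _ _ hij,
        add_neg_cancel, Matrix.transvection_zero, dlt_one]
    rw [h0, zero_mul] at h5
    exact zero_ne_one h5
  rw [h2] at h3
  exact (mul_left_cancel₀ h4 (by rw [← h3, mul_one])).symm

theorem good_transvection {i j : Fin q} (hij : i ≠ j) (hb : b i ≤ b j) (c : ℂ) :
    Good b (Matrix.transvection i j c) := by
  refine ⟨?_, Matrix.blockTriangular_transvection hb c, 1, fun _ => one_ne_zero,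
    fun d f hf g => ?_, ?_⟩
  · rw [Matrix.det_transvection_of_ne _ _ hij]
    exact one_ne_zero
  · rw [mul_transvection, hf.shear g i j c hij hb]
    simp
  · rw [dlt_transvection hij hb]
    simp

/-- The matrix `1 + e_r v`. -/
noncomputable def rowM (r : Fin q) (v : Fin q → ℂ) : Matrix (Fin q) (Fin q) ℂ :=
  1 + Matrix.of fun i j => if i = r then v j else 0

theorem good_rowM {r : Fin q} (s : Finset (Fin q)) (v : Fin q → ℂ) (hr : r ∉ s)
    (hs : ∀ j ∈ s, b r ≤ b j) : Good b (rowM r fun j => if j ∈ s then v j else 0) := by
  classical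
  induction s using Finset.induction_on with
  | empty =>
    have h1 : rowM r (fun j => if j ∈ (∅ : Finset (Fin q)) then v j else 0) = 1 := by
      ext1 i j
      simp [rowM]
    rw [h1]
    exact good_one
  | insert k s hk ih =>
    have hrk : r ≠ k := fun h => hr (h ▸ Finset.mem_insert_self _ _)
    have h1 : rowM r (fun j => if j ∈ insert k s then v j else 0) =
        rowM r (fun j => if j ∈ s then v j else 0) * Matrix.transvection r k (v k) := by
      rw [mul_transvection]
      ext1 i j
      simp only [rowM, Matrix.updateCol_apply, Matrix.add_apply, Matrix.of_apply, Matrix.one_apply,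
        Finset.mem_insert]
      have hrs : r ∉ s := fun h => hr (Finset.mem_insert_of_mem h)
      by_cases hj : j = k
      · subst hj
        by_cases hi : i = r
        · subst hi
          simp [hk, hrs, hrk]
        · simp [hi]
      · simp [hj]
    rw [h1]
    exact (ih (fun h => hr (Finset.mem_insert_of_mem h))
      fun j hj => hs j (Finset.mem_insert_of_mem hj)).mul
      (good_transvection hrk (hs k (Finset.mem_insert_self _ _)) _)

theorem Good.of_mul {p r : Matrix (Fin q) (Fin q) ℂ} {r' : Matrix (Fin q) (Fin q) ℂ}
    (h : Good b (p * r)) (hr : Good b r') (hrr : r * r' = 1) : Good b p := by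
  have h1 := h.mul hr
  rwa [Matrix.mul_assoc, hrr, Matrix.mul_one] at h1

/-- The rows below `r` are clean. -/
theorem good_clean (hb : Monotone b) : ∀ (r : ℕ) (p : Matrix (Fin q) (Fin q) ℂ), p.det ≠ 0 →
    p.BlockTriangular b → (∀ i j : Fin q, r ≤ (i : ℕ) → i ≠ j → p i j = 0) → Good b p := by
  intro r
  induction r with
  | zero =>
    intro p hp _ hcl
    have h1 : p = Matrix.diagonal fun i => p i i := by
      ext1 i j
      rcases eq_or_ne i j with h | h
      · subst h
        rw [Matrix.diagonal_apply_eq]
      · rw [Matrix.diagonal_apply_ne _ h, hcl i j (Nat.zero_le _) h]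
    rw [h1] at hp ⊢
    rw [Matrix.det_diagonal] at hp
    exact good_diagonal fun j => Finset.prod_ne_zero_iff.1 hp j (Finset.mem_univ j)
  | succ r ih =>
    -- first the case that the diagonal entry is not zero
    have key : ∀ p : Matrix (Fin q) (Fin q) ℂ, p.det ≠ 0 → p.BlockTriangular b →
        (∀ i j : Fin q, r + 1 ≤ (i : ℕ) → i ≠ j → p i j = 0) →
        ∀ r' : Fin q, (r' : ℕ) = r → p r' r' ≠ 0 → Good b p := by
      intro p hp hbt hcl r' hr' hne
      set v : Fin q → ℂ := fun j => -(p r' j / p r' r') with hv
      set s : Finset (Fin q) := Finset.univ.filter fun j => j ≠ r' ∧ b r' ≤ b j with hs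
      have hs1 : r' ∉ s := by simp [hs]
      have hs2 : ∀ j ∈ s, b r' ≤ b j := fun j hj => (Finset.mem_filter.1 hj).2.2
      set R := rowM r' (fun j => if j ∈ s then v j else 0) with hR
      set R' := rowM r' (fun j => if j ∈ s then -v j else 0) with hR'
      have hRR : R * R' = 1 := by
        ext1 i j
        rw [hR, hR', rowM, rowM, Matrix.add_mul, Matrix.one_mul, Matrix.mul_add, Matrix.mul_one,
          Matrix.add_apply, Matrix.add_apply, Matrix.add_apply, Matrix.mul_apply]
        have h0 : ∑ k, (Matrix.of fun i j => if i = r' then (if j ∈ s then v j else 0) else 0) i k *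
            (Matrix.of fun i j => if i = r' then (if j ∈ s then -v j else 0) else 0) k j =
            (0 : ℂ) := by
          apply Finset.sum_eq_zero
          intro k _
          simp only [Matrix.of_apply]
          by_cases hk : k = r'
          · subst hk
            simp [hs1]
          · simp [hk]
        rw [h0]
        simp only [Matrix.of_apply]
        split_ifs <;> simp
      have hentry : ∀ i j, (p * R) i j = p i j + p i r' * (if j ∈ s then v j else 0) := by
        intro i j
        rw [hR, rowM, Matrix.mul_add, Matrix.mul_one, Matrix.add_apply, Matrix.mul_apply]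
        congr 1
        rw [Finset.sum_eq_single r']
        · simp
        · intro k _ hk
          simp [hk]
        · intro h
          exact absurd (Finset.mem_univ _) h
      have hRg : Good b R := good_rowM s v hs1 hs2
      have hRg' : Good b R' := by
        have := good_rowM (b := b) s (fun j => -v j) hs1 hs2
        exact this
      refine Good.of_mul (ih (p * R) ?_ (hbt.mul hRg.2.1) ?_) hRg' hRR
      · rw [Matrix.det_mul]
        exact mul_ne_zero hp hRg.1
      · intro i j hi hij
        rw [hentry]
        rcases Nat.lt_or_ge r i with h | h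
        · rw [hcl i j h hij, hcl i r' h (fun h' => by rw [h'] at h; omega), zero_mul, add_zero]
        · have hir : i = r' := Fin.ext (by omega)
          subst hir
          by_cases hbj : b i ≤ b j
          · have hjs : j ∈ s := Finset.mem_filter.2 ⟨Finset.mem_univ _, hij.symm, hbj⟩
            rw [if_pos hjs, hv]
            field_simp
            ring
          · have hjs : j ∉ s := fun h => hbj (hs2 j h)
            rw [if_neg hjs, mul_zero, add_zero]
            exact hbt (not_le.1 hbj)
    intro p hp hbt hcl
    rcases Nat.lt_or_ge r q with hrq | hrq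
    swap
    · exact ih p hp hbt fun i j hi hij => absurd i.2 (by omega)
    set r' : Fin q := ⟨r, hrq⟩ with hr'
    by_cases hne : p r' r' ≠ 0
    · exact key p hp hbt hcl r' rfl hne
    push Not at hne
    -- there is a nonzero entry to the left
    obtain ⟨j, hj1, hj2⟩ : ∃ j : Fin q, j < r' ∧ p r' j ≠ 0 := by
      by_contra hcon
      push Not at hcon
      apply hp
      have h1 : p.BlockTriangular (fun i : Fin q => i) ∨ True := Or.inr trivial
      -- the rows `≥ r` of `p` are dependent: use a vector killed by `p` from the left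
      apply Matrix.exists_vecMul_eq_zero_iff.1
      have hdiag : ∀ i : Fin q, r + 1 ≤ (i : ℕ) → p i i ≠ 0 := by
        intro i hi h0
        apply hp
        apply Matrix.det_eq_zero_of_row_eq_zero i
        intro k
        rcases eq_or_ne i k with h | h
        · rw [← h, h0]
        · exact hcl i k hi h
      refine ⟨fun i => if i = r' then 1 else if r + 1 ≤ (i : ℕ) then -(p r' i / p i i) else 0, ?_, ?_⟩
      · intro h
        have := congrFun h r'
        simp at this
      · funext k
        simp only [Matrix.vecMul, dotProduct, Pi.zero_apply]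
        have h2 : ∀ i : Fin q, (if i = r' then (1 : ℂ) else
            if r + 1 ≤ (i : ℕ) then -(p r' i / p i i) else 0) * p i k =
            (if i = r' then p r' k else 0) +
              (if i = k then (if r + 1 ≤ (k : ℕ) then -p r' k else 0) else 0) := by
          intro i
          by_cases hi : i = r'
          · subst hi
            by_cases hk : r' = k
            · rw [← hk]
              have : ¬ r + 1 ≤ (r' : ℕ) := by simp [hr']
              simp [this]
            · simp [hk]
          · rw [if_neg hi, if_neg hi, zero_add]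
            by_cases hi2 : r + 1 ≤ (i : ℕ)
            · rw [if_pos hi2]
              by_cases hk : i = k
              · subst hk
                rw [if_pos rfl, if_pos hi2]
                have := hdiag i hi2
                field_simp
              · rw [if_neg hk, hcl i k hi2 hk, mul_zero]
            · rw [if_neg hi2, zero_mul]
              by_cases hk : i = k
              · subst hk
                rw [if_pos rfl, if_neg hi2]
              · rw [if_neg hk]
        rw [Finset.sum_congr rfl fun i _ => h2 i, Finset.sum_add_distrib, Finset.sum_ite_eq',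
          Finset.sum_ite_eq', if_pos (Finset.mem_univ _), if_pos (Finset.mem_univ _)]
        by_cases hk : r + 1 ≤ (k : ℕ)
        · rw [if_pos hk, add_neg_cancel]
        · rw [if_neg hk, add_zero]
          rcases lt_or_eq_of_le (show (k : ℕ) ≤ r by omega) with h | h
          · exact hcon k (by rw [Fin.lt_def]; exact h)
          · have : k = r' := Fin.ext h
            rw [this, hne]
    have hbj : b j ≤ b r' := hb hj1.le
    have hT : Good b (Matrix.transvection j r' (1 : ℂ)) := good_transvection hj1.ne hbj 1
    have hT' : Good b (Matrix.transvection j r' (-1 : ℂ)) := good_transvection hj1.ne hbj (-1)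
    refine Good.of_mul (key (p * Matrix.transvection j r' 1) ?_ (hbt.mul hT.2.1) ?_ r' rfl ?_) hT'
      (by rw [Matrix.transvection_mul_transvection_same _ _ hj1.ne, add_neg_cancel,
        Matrix.transvection_zero])
    · rw [Matrix.det_mul]
      exact mul_ne_zero hp hT.1
    · intro i k hi hik
      rw [mul_transvection, Matrix.updateCol_apply]
      have hij : i ≠ j := by
        intro h
        rw [h] at hi
        have : (j : ℕ) < r := hj1
        omega
      split_ifs with h
      · rw [hcl i j hi hij, mul_zero, add_zero, ← h, hcl i k hi hik]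
      · exact hcl i k hi hik
    · rw [mul_transvection, Matrix.updateCol_self, hne, zero_add, one_mul]
      exact hj2

/-- All elements of the parabolic group are good. -/
theorem good_of_bt (hb : Monotone b) {p : Matrix (Fin q) (Fin q) ℂ} (hp : p.det ≠ 0)
    (hbt : p.BlockTriangular b) : Good b p :=
  good_clean hb q p hp hbt fun i _ hi _ => absurd i.2 (by omega)

end H18.Adj
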