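import Pool.Agent.H18.Adj.Man

/-!
# The differential of a map to a bundle of flag varieties
-/

set_option autoImplicit false
set_option linter.unusedSectionVars false

namespace H18.Adj

open MvPolynomial Q47.FL H18.GIT Filter
open scoped Manifold ContDiff Topology

universe u v w x

attribute [local instance] Matrix.linftyOpNormedRing Matrix.linftyOpNormedAlgebra

variable {n : ℕ} {B : Type u} [TopologicalSpace B] [ChartedSpace (Fin n → ℂ) B]
  [IsManifold 𝓘(ℂ, Fin n → ℂ) ω B] {q : ℕ} {ι : Type v} {Y : FlagBundle n B q ι} {b : Fin q → ℕ}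
  {k : ℕ} {X : Type w} [TopologicalSpace X] [ChartedSpace (Fin k → ℂ) X]
  [IsManifold 𝓘(ℂ, Fin k → ℂ) ω X] {κ : Type x} (h : FlagMap Y b k X κ)

theorem isOpen_U (i : ι) : IsOpen (Y.U i) := (Y.chart i).open_source

theorem semi_hom {d : ℕ → ℕ} {F : ι → B → MvPolynomial (Fin q × Fin q) ℂ} {e : ι → ι → B → ℂ}
    (hF : Y.IsDivisor b d F e) {i : ι} {p : B} (hp : p ∈ Y.U i) :
    ∀ᶠ z in 𝓝 (Y.chart i p), (F i ((Y.chart i).symm z)).IsHomogeneous (∑ j, d (b j)) := by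
  filter_upwards [(Y.chart i).open_target.mem_nhds ((Y.chart i).map_source hp)] with z hz
  exact hom_of_semi (hF.semi i _ ((Y.chart i).map_target hz))

/-- The equation of a divisor in coordinates is holomorphic. -/
theorem contDiffAt_Xi {d : ℕ → ℕ} {F : ι → B → MvPolynomial (Fin q × Fin q) ℂ}
    (hol : ∀ i α, Holo (n := n) (Y.U i) fun p => coeff α (F i p))
    (semi : ∀ i, ∀ p ∈ Y.U i, IsSemiInvariant b d (F i p))
    {i : ι} {p : B} (hp : p ∈ Y.U i) (g : Matrix (Fin q) (Fin q) ℂ) :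
    ContDiffAt ℂ ω (fun c : (Fin n → ℂ) × Matrix (Fin q) (Fin q) ℂ =>
      ev c.2 (F i ((Y.chart i).symm c.1))) (Y.chart i p, g) := by
  have h1 : ∀ᶠ z in 𝓝 (Y.chart i p),
      (F i ((Y.chart i).symm z)).IsHomogeneous (∑ j, d (b j)) := by
    filter_upwards [(Y.chart i).open_target.mem_nhds ((Y.chart i).map_source hp)] with z hz
    exact hom_of_semi (semi i _ ((Y.chart i).map_target hz))
  exact contDiffAt_ev (E := (Fin n → ℂ)) (P := fun z => F i ((Y.chart i).symm z)) (fun α =>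
    contDiffAt_chart ((hol i α).contMDiffAt ((isOpen_U i).mem_nhds hp)) (Y.mem_atlas i) hp) h1 g

variable {h}

theorem contDiffAt_base {a : κ} {p : X} (hp : p ∈ h.W a)
    {ψ : OpenPartialHomeomorph X (Fin k → ℂ)} (hψ : ψ ∈ atlas (Fin k → ℂ) X) (hpψ : p ∈ ψ.source) :
    ContDiffAt ℂ ω (fun z => Y.chart (h.idx a) (h.π (ψ.symm z))) (ψ p) := by
  have h1 : ContMDiffAt 𝓘(ℂ, Fin n → ℂ) 𝓘(ℂ, Fin n → ℂ) ω (Y.chart (h.idx a)) (h.π p) :=
    contMDiffAt_of_mem_maximalAtlas (IsManifold.subset_maximalAtlas (Y.mem_atlas _)) (h.mem a p hp)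
  exact contDiffAt_chart (h1.comp p (h.holo_π p)) hψ hpψ

theorem contDiffAt_lift {a : κ} {p : X} (hp : p ∈ h.W a)
    {ψ : OpenPartialHomeomorph X (Fin k → ℂ)} (hψ : ψ ∈ atlas (Fin k → ℂ) X) (hpψ : p ∈ ψ.source) :
    ContDiffAt ℂ ω (fun z => h.g a (ψ.symm z)) (ψ p) :=
  contDiffAt_matrix fun i j =>
    contDiffAt_chart ((h.holo a i j).contMDiffAt ((h.isOpen a).mem_nhds hp)) hψ hpψ

theorem contDiffAt_A {i j : ι} {p : B} (hp : p ∈ Y.U i ∩ Y.U j) :
    ContDiffAt ℂ ω (fun z => Y.A i j ((Y.chart j).symm z)) (Y.chart j p) :=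
  contDiffAt_matrix fun k l =>
    contDiffAt_chart ((Y.holo i j k l).contMDiffAt
      (((isOpen_U i).inter (isOpen_U j)).mem_nhds hp)) (Y.mem_atlas j) hp.2

/-- The points near a point. -/
theorem eventually_mem {ψ : OpenPartialHomeomorph X (Fin k → ℂ)} {p : X} (hpψ : p ∈ ψ.source)
    {W : Set X} (hW : IsOpen W) (hp : p ∈ W) : ∀ᶠ z in 𝓝 (ψ p), ψ.symm z ∈ W := by
  apply ψ.continuousAt_symm (ψ.map_source hpψ)
  rw [ψ.left_inv hpψ]
  exact hW.mem_nhds hp

theorem hasFDerivAt_diff {a : κ} {p : X} (hp : p ∈ h.W a)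
    {ψ : OpenPartialHomeomorph X (Fin k → ℂ)} (hψ : ψ ∈ atlas (Fin k → ℂ) X) (hpψ : p ∈ ψ.source)
    (x : Matrix (Fin q) (Fin q) ℂ) :
    HasFDerivAt (fun z => (Y.chart (h.idx a) (h.π (ψ.symm z)), low b (x * h.g a (ψ.symm z))))
      ((fderiv ℂ (fun z => Y.chart (h.idx a) (h.π (ψ.symm z))) (ψ p)).prod
        ((lowL b).comp ((ContinuousLinearMap.mul ℂ _ x).comp
          (fderiv ℂ (fun z => h.g a (ψ.symm z)) (ψ p))))) (ψ p) :=
  hasFDerivAt_coord (P := fun z => Y.chart (h.idx a) (h.π (ψ.symm z)))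
    (g := fun z => h.g a (ψ.symm z))
    ((contDiffAt_base hp hψ hpψ).differentiableAt (by simp)).hasFDerivAt
    ((contDiffAt_lift hp hψ hpψ).differentiableAt (by simp)).hasFDerivAt x

theorem diff_apply {a : κ} {p : X} (hp : p ∈ h.W a)
    {ψ : OpenPartialHomeomorph X (Fin k → ℂ)} (hψ : ψ ∈ atlas (Fin k → ℂ) X) (hpψ : p ∈ ψ.source)
    (w : Fin k → ℂ) :
    h.diff ψ a p w = (fderiv ℂ (fun z => Y.chart (h.idx a) (h.π (ψ.symm z))) (ψ p) w,
      low b ((h.g a p)⁻¹ * fderiv ℂ (fun z => h.g a (ψ.symm z)) (ψ p) w)) := by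
  have h1 := (hasFDerivAt_diff hp hψ hpψ (h.g a p)⁻¹).fderiv
  have h2 : h.diff ψ a p = fderiv ℂ (fun z => (Y.chart (h.idx a) (h.π (ψ.symm z)),
    low b ((h.g a p)⁻¹ * h.g a (ψ.symm z)))) (ψ p) := rfl
  rw [h2, h1]
  rfl

/-- The change of the chart of `X`. -/
theorem diff_trans {a : κ} {p : X} (hp : p ∈ h.W a)
    {ψ ψ' : OpenPartialHomeomorph X (Fin k → ℂ)} (hψ : ψ ∈ atlas (Fin k → ℂ) X)
    (hψ' : ψ' ∈ atlas (Fin k → ℂ) X) (hpψ : p ∈ ψ.source) (hpψ' : p ∈ ψ'.source) :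
    h.diff ψ' a p = (h.diff ψ a p).comp (fderiv ℂ (ψ ∘ ψ'.symm) (ψ' p)) := by
  have h1 := (hasFDerivAt_diff hp hψ hpψ (h.g a p)⁻¹)
  have h2 : HasFDerivAt (ψ ∘ ψ'.symm) (fderiv ℂ (ψ ∘ ψ'.symm) (ψ' p)) (ψ' p) :=
    ((contDiffAt_trans hψ hψ' ⟨hpψ, hpψ'⟩).differentiableAt (by simp)).hasFDerivAt
  have h3 : HasFDerivAt (fun z => (Y.chart (h.idx a) (h.π (ψ.symm z)),
      low b ((h.g a p)⁻¹ * h.g a (ψ.symm z)))) (h.diff ψ a p) ((ψ ∘ ψ'.symm) (ψ' p)) := by
    have h4 : h.diff ψ a p = fderiv ℂ (fun z => (Y.chart (h.idx a) (h.π (ψ.symm z)),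
      low b ((h.g a p)⁻¹ * h.g a (ψ.symm z)))) (ψ p) := rfl
    simp only [Function.comp_apply]
    rw [ψ'.left_inv hpψ', h4, h1.fderiv]
    exact h1
  have h4 := h3.comp (ψ' p) h2
  have h5 : (fun z => (Y.chart (h.idx a) (h.π (ψ'.symm z)),
      low b ((h.g a p)⁻¹ * h.g a (ψ'.symm z)))) =ᶠ[𝓝 (ψ' p)]
      (fun z => (Y.chart (h.idx a) (h.π (ψ.symm z)),
        low b ((h.g a p)⁻¹ * h.g a (ψ.symm z)))) ∘ (ψ ∘ ψ'.symm) := by
    filter_upwards [eventually_mem hpψ' ψ.open_source hpψ] with z hz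
    simp only [Function.comp_apply]
    rw [ψ.left_inv hz]
  exact (h4.congr_of_eventuallyEq h5).fderiv

theorem emb_zero : emb b (0 : Low b → ℂ) = 0 := by
  ext1 i j
  simp [emb]

section normal

variable (hb : Monotone b) {d : ℕ → ℕ} {F : ι → B → MvPolynomial (Fin q × Fin q) ℂ}
  {e : ι → ι → B → ℂ} (hF : Y.IsDivisor b d F e)

include hF

/-- The derivative of the equation. -/
theorem hasFDerivAt_Xi {i : ι} {p : B} (hp : p ∈ Y.U i) (g : Matrix (Fin q) (Fin q) ℂ) :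
    HasFDerivAt (fun c : (Fin n → ℂ) × Matrix (Fin q) (Fin q) ℂ =>
      ev c.2 (F i ((Y.chart i).symm c.1)))
      (fderiv ℂ (fun c : (Fin n → ℂ) × Matrix (Fin q) (Fin q) ℂ =>
        ev c.2 (F i ((Y.chart i).symm c.1))) (Y.chart i p, g)) (Y.chart i p, g) :=
  ((contDiffAt_Xi hF.holo hF.semi hp g).differentiableAt (by simp)).hasFDerivAt

theorem normal_apply {a : κ} {p : X} (hp : p ∈ h.W a) (v : Fin n → ℂ) (y : Low b → ℂ) :
    h.normal F a p (v, y) = fderiv ℂ (fun c : (Fin n → ℂ) × Matrix (Fin q) (Fin q) ℂ =>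
      ev c.2 (F (h.idx a) ((Y.chart (h.idx a)).symm c.1)))
      (Y.chart (h.idx a) (h.π p), h.g a p) (v, h.g a p * emb b y) := by
  have h1 := hasFDerivAt_Xi hF (h.mem a p hp) (h.g a p)
  have h2 : HasFDerivAt (fun c : (Fin n → ℂ) × (Low b → ℂ) =>
      (c.1, h.g a p * (1 + embL b c.2))) ((ContinuousLinearMap.fst ℂ _ _).prod
        ((ContinuousLinearMap.mul ℂ _ (h.g a p)).comp
          ((embL b).comp (ContinuousLinearMap.snd ℂ _ _)))) (Y.chart (h.idx a) (h.π p), 0) := by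
    apply (hasFDerivAt_fst (p := (Y.chart (h.idx a) (h.π p), (0 : Low b → ℂ)))).prodMk
    have h3 : HasFDerivAt (fun c : (Fin n → ℂ) × (Low b → ℂ) => 1 + embL b c.2)
        ((embL b).comp (ContinuousLinearMap.snd ℂ _ _)) (Y.chart (h.idx a) (h.π p), 0) :=
      (((embL b).hasFDerivAt.comp _ (hasFDerivAt_snd
        (p := (Y.chart (h.idx a) (h.π p), (0 : Low b → ℂ)))))).const_add 1
    exact (ContinuousLinearMap.mul ℂ _ (h.g a p)).hasFDerivAt.comp _ h3
  have h3 : (Y.chart (h.idx a) (h.π p), h.g a p * (1 + embL b 0)) =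
      (Y.chart (h.idx a) (h.π p), h.g a p) := by
    rw [map_zero, add_zero, mul_one]
  have h4 := HasFDerivAt.comp (Y.chart (h.idx a) (h.π p), (0 : Low b → ℂ))
    (g := fun c : (Fin n → ℂ) × Matrix (Fin q) (Fin q) ℂ =>
      ev c.2 (F (h.idx a) ((Y.chart (h.idx a)).symm c.1))) (by
      try simp only
      rw [h3]
      exact h1) h2
  have h5 : h.normal F a p = _ := h4.fderiv
  rw [h5]
  rfl

include hb in
theorem deriv_bt' {a : κ} {p : X} (hp : p ∈ h.W a)
    (h0 : ev (h.g a p) (F (h.idx a) (h.π p)) = 0) (ξ : Matrix (Fin q) (Fin q) ℂ)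
    (hξ : ξ.BlockTriangular b) : fderiv ℂ (fun c : (Fin n → ℂ) × Matrix (Fin q) (Fin q) ℂ =>
      ev c.2 (F (h.idx a) ((Y.chart (h.idx a)).symm c.1)))
      (Y.chart (h.idx a) (h.π p), h.g a p) (0, h.g a p * ξ) = 0 := by
  have hU := h.mem a p hp
  refine deriv_bt (hasFDerivAt_Xi hF hU (h.g a p)) ?_ (fun r hr hdet => ?_) hξ
  · try simp only
    rw [(Y.chart (h.idx a)).left_inv hU, h0]
  · obtain ⟨_, _, c, _, hc, _⟩ := good_of_bt hb hdet hr
    refine ⟨∏ j, c j ^ d (b j), fun g => ?_⟩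
    try simp only
    rw [(Y.chart (h.idx a)).left_inv hU]
    exact hc d _ (hF.semi _ _ hU) g

include hb in
/-- The differentials of the equations vanish on the tangent vectors. -/
theorem normal_diff {a : κ} {p : X} (hp : p ∈ h.W a)
    (h0 : ∀ p ∈ h.W a, ev (h.g a p) (F (h.idx a) (h.π p)) = 0)
    {ψ : OpenPartialHomeomorph X (Fin k → ℂ)} (hψ : ψ ∈ atlas (Fin k → ℂ) X) (hpψ : p ∈ ψ.source)
    (w : Fin k → ℂ) : h.normal F a p (h.diff ψ a p w) = 0 := by
  rw [diff_apply hp hψ hpψ, normal_apply hF hp]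
  have hP := ((contDiffAt_base hp hψ hpψ).differentiableAt (by simp)).hasFDerivAt
  have hg := ((contDiffAt_lift hp hψ hpψ).differentiableAt (by simp)).hasFDerivAt
  have hΞ := hasFDerivAt_Xi hF (h.mem a p hp) (h.g a p)
  have hleft : ψ.symm (ψ p) = p := ψ.left_inv hpψ
  have h1 := deriv_zero (b := b) (P := fun z => Y.chart (h.idx a) (h.π (ψ.symm z)))
    (g := fun z => h.g a (ψ.symm z)) (Ξ := fun c : (Fin n → ℂ) × Matrix (Fin q) (Fin q) ℂ =>
      ev c.2 (F (h.idx a) ((Y.chart (h.idx a)).symm c.1)))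
    (L := fderiv ℂ (fun c : (Fin n → ℂ) × Matrix (Fin q) (Fin q) ℂ =>
      ev c.2 (F (h.idx a) ((Y.chart (h.idx a)).symm c.1)))
      (Y.chart (h.idx a) (h.π p), h.g a p)) hP hg (by
      try simp only
      rw [hleft]
      exact hΞ) (by
      try simp only
      rw [hleft]
      exact h.det_ne_zero a p hp) (by
      filter_upwards [eventually_mem hpψ (h.isOpen a) hp] with z hz
      rw [(Y.chart (h.idx a)).left_inv (h.mem a _ hz)]
      exact h0 _ hz) (by
      try simp only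
      rw [hleft]
      exact deriv_bt' hb hF hp (h0 p hp)) w
  simp only [hleft] at h1
  exact h1

end normal

/-- The change of coordinates of `Y`. -/
noncomputable def tr (b : Fin q → ℕ) (C : (Fin n → ℂ) →L[ℂ] (Fin n → ℂ))
    (A' : (Fin n → ℂ) →L[ℂ] Matrix (Fin q) (Fin q) ℂ) (x g r : Matrix (Fin q) (Fin q) ℂ) :
    ((Fin n → ℂ) × (Low b → ℂ)) →ₗ[ℂ] ((Fin n → ℂ) × (Low b → ℂ)) where
  toFun c := (C c.1, low b (r⁻¹ * (g⁻¹ * x⁻¹ * A' c.1 * g + emb b c.2) * r))
  map_add' c c' := by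
    rw [Prod.fst_add, Prod.snd_add, map_add, map_add, emb_add, Prod.mk_add_mk, ← low_add]
    congr 2
    simp only [mul_add, add_mul]
    abel
  map_smul' t c := by
    rw [Prod.smul_fst, Prod.smul_snd, map_smul, map_smul, emb_smul, RingHom.id_apply, Prod.smul_mk,
      ← low_smul]
    congr 2
    rw [Matrix.mul_smul, Matrix.smul_mul, ← smul_add, Matrix.mul_smul, Matrix.smul_mul]

theorem det_tr (C : (Fin n → ℂ) →L[ℂ] (Fin n → ℂ))
    (A' : (Fin n → ℂ) →L[ℂ] Matrix (Fin q) (Fin q) ℂ) (x g r : Matrix (Fin q) (Fin q) ℂ)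
    (hr : dlt b r ≠ 0) : LinearMap.det (tr b C A' x g r) =
      LinearMap.det (C : (Fin n → ℂ) →ₗ[ℂ] (Fin n → ℂ)) * dlt b r := by
  refine det_block (C : (Fin n → ℂ) →ₗ[ℂ] (Fin n → ℂ))
    ({ toFun := fun v => low b (r⁻¹ * (g⁻¹ * x⁻¹ * A' v * g) * r)
       map_add' := fun v v' => by
        rw [map_add, ← low_add]
        congr 1
        simp only [mul_add, add_mul]
       map_smul' := fun t v => by
        rw [map_smul, RingHom.id_apply, ← low_smul]
        congr 1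
        rw [Matrix.mul_smul, Matrix.smul_mul, Matrix.mul_smul, Matrix.smul_mul] } :
      (Fin n → ℂ) →ₗ[ℂ] (Low b → ℂ)) (adj b r) hr _ fun v w => ?_
  change (C v, low b (r⁻¹ * (g⁻¹ * x⁻¹ * A' v * g + emb b w) * r)) =
    (C v, low b (r⁻¹ * (g⁻¹ * x⁻¹ * A' v * g) * r) + low b (r⁻¹ * emb b w * r))
  rw [← low_add]
  congr 2
  simp only [mul_add, add_mul]

section change

variable {a a' : κ} {p : X} (hp : p ∈ h.W a) (hp' : p ∈ h.W a')
  {r : Matrix (Fin q) (Fin q) ℂ} (hr : r.BlockTriangular b)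
  (hgr : h.g a p = Y.A (h.idx a) (h.idx a') (h.π p) * h.g a' p * r)

include hp hp' hgr in
theorem det_r_ne_zero : r.det ≠ 0 := by
  intro h0
  apply h.det_ne_zero a p hp
  rw [hgr, Matrix.det_mul, h0, mul_zero]

/-- The change of coordinates of `Y` for two lifts. -/
noncomputable def trh (h : FlagMap Y b k X κ) (a a' : κ) (p : X) (r : Matrix (Fin q) (Fin q) ℂ) :
    ((Fin n → ℂ) × (Low b → ℂ)) →ₗ[ℂ] ((Fin n → ℂ) × (Low b → ℂ)) :=
  tr b (fderiv ℂ ((Y.chart (h.idx a)) ∘ (Y.chart (h.idx a')).symm) (Y.chart (h.idx a') (h.π p)))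
    (fderiv ℂ (fun z => Y.A (h.idx a) (h.idx a') ((Y.chart (h.idx a')).symm z))
      (Y.chart (h.idx a') (h.π p))) (Y.A (h.idx a) (h.idx a') (h.π p)) (h.g a' p) r

include hp hp' hr hgr in
theorem diff_change {ψ : OpenPartialHomeomorph X (Fin k → ℂ)} (hψ : ψ ∈ atlas (Fin k → ℂ) X)
    (hpψ : p ∈ ψ.source) (w : Fin k → ℂ) :
    h.diff ψ a p w = trh h a a' p r (h.diff ψ a' p w) := by
  have hleft : ψ.symm (ψ p) = p := ψ.left_inv hpψ
  have hU := h.mem a p hp
  have hU' := h.mem a' p hp'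
  rw [diff_apply hp hψ hpψ, diff_apply hp' hψ hpψ]
  have hP := ((contDiffAt_base hp hψ hpψ).differentiableAt (by simp)).hasFDerivAt
  have hg := ((contDiffAt_lift hp hψ hpψ).differentiableAt (by simp)).hasFDerivAt
  have hP' := ((contDiffAt_base hp' hψ hpψ).differentiableAt (by simp)).hasFDerivAt
  have hg' := ((contDiffAt_lift hp' hψ hpψ).differentiableAt (by simp)).hasFDerivAt
  have hA := ((contDiffAt_A (Y := Y) ⟨hU, hU'⟩).differentiableAt (by simp)).hasFDerivAt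
  have hτ : HasFDerivAt ((Y.chart (h.idx a)) ∘ (Y.chart (h.idx a')).symm)
      (fderiv ℂ ((Y.chart (h.idx a)) ∘ (Y.chart (h.idx a')).symm) (Y.chart (h.idx a') (h.π p)))
      (Y.chart (h.idx a') (h.π p)) :=
    ((contDiffAt_trans (Y.mem_atlas _) (Y.mem_atlas _) ⟨hU, hU'⟩).differentiableAt
      (by simp)).hasFDerivAt
  apply Prod.ext
  · have h1 := HasFDerivAt.comp (ψ p) (f := fun z => Y.chart (h.idx a') (h.π (ψ.symm z)))
      (g := (Y.chart (h.idx a)) ∘ (Y.chart (h.idx a')).symm) (by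
        try simp only
        rw [hleft]
        exact hτ) hP'
    have h2 : (fun z => Y.chart (h.idx a) (h.π (ψ.symm z))) =ᶠ[𝓝 (ψ p)]
        ((Y.chart (h.idx a)) ∘ (Y.chart (h.idx a')).symm) ∘
          (fun z => Y.chart (h.idx a') (h.π (ψ.symm z))) := by
      filter_upwards [eventually_mem hpψ (h.isOpen a') hp'] with z hz
      simp only [Function.comp_apply]
      rw [(Y.chart (h.idx a')).left_inv (h.mem a' _ hz)]
    have h3 := hP.unique (h1.congr_of_eventuallyEq h2)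
    exact ContinuousLinearMap.ext_iff.1 h3 w
  · have h1 := deriv_change (b := b) (z := ψ p)
      (P₁ := fun z => Y.chart (h.idx a') (h.π (ψ.symm z)))
      (g := fun z => h.g a (ψ.symm z)) (g₁ := fun z => h.g a' (ψ.symm z))
      (A := fun z => Y.A (h.idx a) (h.idx a') ((Y.chart (h.idx a')).symm z))
      (A' := fderiv ℂ (fun z => Y.A (h.idx a) (h.idx a') ((Y.chart (h.idx a')).symm z))
        (Y.chart (h.idx a') (h.π p))) hP' hg hg' (by
        try simp only
        rw [hleft]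
        exact hA) (by
        try simp only
        rw [hleft]
        exact h.det_ne_zero a p hp) (by
        try simp only
        rw [hleft]
        exact h.det_ne_zero a' p hp') (by
        try simp only
        rw [hleft, (Y.chart (h.idx a')).left_inv hU']
        exact Y.det_ne_zero _ _ _ ⟨hU, hU'⟩) hr (by
        try simp only
        rw [hleft, (Y.chart (h.idx a')).left_inv hU']
        exact hgr) (by
        filter_upwards [eventually_mem hpψ (h.isOpen a) hp,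
          eventually_mem hpψ (h.isOpen a') hp'] with z hz hz'
        rw [(Y.chart (h.idx a')).left_inv (h.mem a' _ hz')]
        exact h.compat a a' _ ⟨hz, hz'⟩) w
    simp only [hleft, (Y.chart (h.idx a')).left_inv hU'] at h1
    exact h1

include hp hp' hr hgr in
theorem normal_change (hb : Monotone b) {d : ℕ → ℕ} {F : ι → B → MvPolynomial (Fin q × Fin q) ℂ}
    {e : ι → ι → B → ℂ} (hF : Y.IsDivisor b d F e)
    (h0 : ev (h.g a p) (F (h.idx a) (h.π p)) = 0) (h0' : ev (h.g a' p) (F (h.idx a') (h.π p)) = 0)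
    {χ : ℂ} (hχ : ∀ f, IsSemiInvariant b d f → ∀ g, ev (g * r) f = χ * ev g f)
    (c : (Fin n → ℂ) × (Low b → ℂ)) : h.normal F a p (trh h a a' p r c) =
      e (h.idx a) (h.idx a') (h.π p) * χ * h.normal F a' p c := by
  obtain ⟨v, y⟩ := c
  have hU := h.mem a p hp
  have hU' := h.mem a' p hp'
  have hA := ((contDiffAt_A (Y := Y) ⟨hU, hU'⟩).differentiableAt (by simp)).hasFDerivAt
  have hτ : HasFDerivAt ((Y.chart (h.idx a)) ∘ (Y.chart (h.idx a')).symm)
      (fderiv ℂ ((Y.chart (h.idx a)) ∘ (Y.chart (h.idx a')).symm) (Y.chart (h.idx a') (h.π p)))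
      (Y.chart (h.idx a') (h.π p)) :=
    ((contDiffAt_trans (Y.mem_atlas _) (Y.mem_atlas _) ⟨hU, hU'⟩).differentiableAt
      (by simp)).hasFDerivAt
  have hleft : (Y.chart (h.idx a')).symm (Y.chart (h.idx a') (h.π p)) = h.π p :=
    (Y.chart (h.idx a')).left_inv hU'
  have hdet := det_r_ne_zero hp hp' hgr
  rw [normal_apply hF hp']
  have h1 := deriv_change_normal (b := b) (z := Y.chart (h.idx a') (h.π p))
    (τ := (Y.chart (h.idx a)) ∘ (Y.chart (h.idx a')).symm)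
    (A := fun z => Y.A (h.idx a) (h.idx a') ((Y.chart (h.idx a')).symm z))
    (Ξ := fun c : (Fin n → ℂ) × Matrix (Fin q) (Fin q) ℂ =>
      ev c.2 (F (h.idx a) ((Y.chart (h.idx a)).symm c.1)))
    (Ξ₁ := fun c : (Fin n → ℂ) × Matrix (Fin q) (Fin q) ℂ =>
      ev c.2 (F (h.idx a') ((Y.chart (h.idx a')).symm c.1)))
    (L := fderiv ℂ (fun c : (Fin n → ℂ) × Matrix (Fin q) (Fin q) ℂ =>
      ev c.2 (F (h.idx a) ((Y.chart (h.idx a)).symm c.1)))
      (Y.chart (h.idx a) (h.π p), h.g a p)) (g := h.g a p) (g₁ := h.g a' p) (p := r) hτ hA (by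
      try simp only
      rw [hleft]
      exact hgr) (by
      try simp only
      rw [hleft]
      exact Y.det_ne_zero _ _ _ ⟨hU, hU'⟩) (h.det_ne_zero a' p hp') hdet (by
      simp only [Function.comp_apply]
      rw [hleft]
      exact hasFDerivAt_Xi hF hU _) (hasFDerivAt_Xi hF hU' _) (by
      try simp only
      rw [hleft]
      exact h0') (e := fun z => e (h.idx a) (h.idx a') ((Y.chart (h.idx a')).symm z)) (by
      exact (contDiffAt_chart ((hF.holo_e (h.idx a) (h.idx a')).contMDiffAt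
        (((isOpen_U _).inter (isOpen_U _)).mem_nhds ⟨hU, hU'⟩)) (Y.mem_atlas _)
        hU').differentiableAt (by simp)) (χ := χ) (by
      have h2 : ∀ᶠ z in 𝓝 (Y.chart (h.idx a') (h.π p)),
          (Y.chart (h.idx a')).symm z ∈ Y.U (h.idx a) ∩ Y.U (h.idx a') := by
        apply (Y.chart (h.idx a')).continuousAt_symm ((Y.chart (h.idx a')).map_source hU')
        rw [hleft]
        exact ((isOpen_U _).inter (isOpen_U _)).mem_nhds ⟨hU, hU'⟩
      filter_upwards [h2] with z hz g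
      simp only [Function.comp_apply]
      rw [(Y.chart (h.idx a)).left_inv hz.1, hχ _ (hF.semi _ _ hz.1), hF.eq _ _ _ hz]
      ring) (deriv_bt' hb hF hp h0) v y
  simp only [hleft] at h1
  rw [← h1]
  exact normal_apply hF hp _ _

end change

end H18.Adj
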